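import Pool.Agent.Run7.h850.SC.Grow3

/-!
# The block step, with cycles
-/

set_option autoImplicit false
set_option linter.unusedSectionVars false
set_option linter.unusedVariables false

namespace Run7.h850.SC

open Matrix Pool.Agent.H812R2.SSE
open Run7.h850.SS hiding Bo Gw Fam PB fam_pb core2 loc_glob glue block_step gd_sub gd_blocks fam_iso' reduce3 gw_of_gd
open Run7.h850.SG (Two cl cl2 pdl mod_add_mul Pth Dd Up exD1 shift1 BD NN yy ww yw toN fromN NN_total NN_big blk' up' dvd_modEq PP_up PP_add' PP_left PP_right adv)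

variable {γ β : Type} [Fintype γ] [DecidableEq γ] [Fintype β] [DecidableEq β]

theorem NN_one3 {Θ : Matrix γ γ ℕ} {B : Matrix β β ℕ} {Y : Matrix γ β ℕ} {P : ℕ} {i : γ} {b : β}
    (h1 : 1 ≤ Y i b) (h2 : (B ^ P) b b ≠ 0) : 1 ≤ NN Θ B Y P i b := by
  by_cases h : ww Y P i b = 0
  · have h3 : Y i b % (P + 1) = 0 := h
    have h4 : 1 * (P + 1) ≤ Y i b := by
      have := Nat.le_of_dvd h1 (Nat.dvd_of_mod_eq_zero h3)
      omega
    refine NN_big (s := 0) (i' := i) (b' := b) (Nat.zero_le _) ?_ ?_ h4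
    · rw [pow_zero, Matrix.one_apply_eq]; exact one_ne_zero
    · exact h2
  · have h3 := mul_entry_le (ww Y P) (B ^ P) i b b
    have h5 : 1 * 1 ≤ ww Y P i b * (B ^ P) b b :=
      Nat.mul_le_mul (Nat.one_le_iff_ne_zero.2 h) (Nat.one_le_iff_ne_zero.2 h2)
    change 1 ≤ (ww Y P * B ^ P) i b + SG.Spr Θ B (yy Y P) P (P + 1) i b
    omega

section

variable {Θ : Matrix γ γ ℕ} {m m' : Matrix γ β ℕ} {B : Matrix β β ℕ}

theorem BD.upeq {e f l : ℕ} {r : Matrix γ β ℕ}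
    {s0 : Matrix γ γ ℕ} {s12 : Matrix γ β ℕ} {S2 : Matrix β β ℕ} {D : ℕ}
    (h : BD Θ m m' B e f l r s0 s12 S2) (hD : Dd Θ B D) (x : ℕ) :
    Up D (e + x) Θ m' B = Up D (f + x) Θ m B := by
  ext i b
  exact ⟨h.up1 hD, h.up2 hD⟩

theorem block_step (hΘ : Bo Θ) (hB : ∀ b, Rec B b) (e f l : ℕ) (r : Matrix γ β ℕ)
    (s0 : Matrix γ γ ℕ) (s12 : Matrix γ β ℕ) (S2 : Matrix β β ℕ)
    (hAR : fromBlocks Θ m 0 B * fromBlocks (Θ ^ e) r 0 (B ^ f) =
      fromBlocks (Θ ^ e) r 0 (B ^ f) * fromBlocks Θ m' 0 B)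
    (hRS : fromBlocks (Θ ^ e) r 0 (B ^ f) * fromBlocks s0 s12 0 S2 = (fromBlocks Θ m 0 B) ^ l)
    (hSR : fromBlocks s0 s12 0 S2 * fromBlocks (Θ ^ e) r 0 (B ^ f) =
      (fromBlocks Θ m' 0 B) ^ l) :
    ∃ T, CH (XO Θ m B) (XO Θ m' B)
      ((fromBlocks Θ m 0 B) ^ T * fromBlocks (Θ ^ e) r 0 (B ^ f)) := by
  have bd : BD Θ m m' B e f l r s0 s12 S2 := by
    have h1 := hAR
    have h2 := hRS
    have h3 := hSR
    rw [up', up'] at h1
    rw [up', block_pow] at h2 h3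
    obtain ⟨-, a2, -⟩ := blk' h1
    obtain ⟨b1, b2, -⟩ := blk' h2
    obtain ⟨-, c2, c3⟩ := blk' h3
    refine ⟨?_, b1, c3, b2, c2⟩
    rw [← a2, add_comm]
  obtain ⟨D, hD⟩ := exD3 (fun c => hΘ.rec c) hB
  obtain ⟨σ, τ, Sf, hS⟩ := gro hΘ hB hD
  have gro1 := hS m f
  have gro2 := hS m' e
  have up0 : Up D e Θ m' B = Up D f Θ m B := BD.upeq bd hD 0
  rw [up0, BD.upeq bd hD (D - 1)] at gro2
  obtain ⟨Sx, hSx⟩ : ∃ Sx, Sx = Sf (Up D f Θ m B) (Up D (f + (D - 1)) Θ m B) := ⟨_, rfl⟩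
  rw [← hSx] at gro1 gro2
  obtain ⟨p1, g1⟩ := gro1.gr (tot B + tot Θ + 1)
  obtain ⟨p2, g2⟩ := gro2.gr (tot B + tot Θ + 1)
  obtain ⟨p, hp⟩ : ∃ p, p = p1 + p2 := ⟨_, rfl⟩
  obtain ⟨a1, g1⟩ := g1 p (by omega)
  obtain ⟨a2, g2⟩ := g2 p (by omega)
  obtain ⟨P, hP⟩ : ∃ P, P = D * p := ⟨_, rfl⟩
  rw [← hP] at g1 g2
  obtain ⟨u, hu⟩ : ∃ u, u = e * (D - 1) := ⟨_, rfl⟩
  obtain ⟨Q, hQ⟩ : ∃ Q, Q = D * (a1 + a2 + u + 1) := ⟨_, rfl⟩
  have hQ1 : a1 + a2 + u + 1 ≤ Q := by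
    rw [hQ]; exact Nat.le_mul_of_pos_left _ hD.pos
  obtain ⟨w, hw⟩ : ∃ w, Q = u + w := ⟨Q - u, by omega⟩
  obtain ⟨t, ht⟩ : ∃ t, t = P + Q := ⟨_, rfl⟩
  have hDt : D ∣ t := by
    rw [ht, hP, hQ]
    exact Dvd.dvd.add (Dvd.intro _ rfl) (Dvd.intro _ rfl)
  have hDQ : D ∣ Q := by rw [hQ]; exact Dvd.intro _ rfl
  have hue : u + e = D * e := by
    obtain ⟨d, rfl⟩ : ∃ d, D = d + 1 := ⟨D - 1, by have := hD.pos; omega⟩
    rw [hu]; simp; ring
  obtain ⟨x, hx⟩ : ∃ x, x = Θ ^ (t + e) * m' := ⟨_, rfl⟩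
  obtain ⟨Y, hY⟩ : ∃ Y, Y = Θ ^ Q * m * B ^ (f + t) := ⟨_, rfl⟩
  obtain ⟨Y', hY'⟩ : ∃ Y', Y' = Θ ^ u * x * B ^ w := ⟨_, rfl⟩
  -- the legal paths
  have c11 : Pth Θ B (m * B ^ (f + t + t)) (Y * B ^ P) (PP Θ m B Q * B ^ (f + t + P)) := by
    refine (adv (Θ := Θ) (B := B) Q (f + t + P) 0 m).cast ?_ ?_ rfl
    · rw [zero_add, show Q + (f + t + P) = f + t + t by omega]
    · rw [zero_add, hY, Matrix.mul_assoc (Θ ^ Q * m), ← pow_add]
  have c12 := toN (Θ := Θ) (B := B) Y P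
  have d1 := fromN (Θ := Θ) (B := B) Y P
  have id0 := NN_total (Θ := Θ) (B := B) Y P
  obtain ⟨G12, hG12⟩ : ∃ G, G = ∑ s ∈ Finset.range (P + 1), PP Θ (yy Y P) B s * B ^ (P - s) :=
    ⟨_, rfl⟩
  obtain ⟨G1, hG1⟩ : ∃ G, G = (∑ s ∈ Finset.range (P + 1), PP Θ (Θ ^ s * yy Y P) B (P - s)) +
    PP Θ (ww Y P) B P := ⟨_, rfl⟩
  rw [← hG12] at c12 id0
  rw [← hG1] at d1 id0
  have d1' : Pth Θ B (NN Θ B Y P) (Θ ^ t * m * B ^ (f + t)) G1 := by
    refine d1.cast rfl ?_ rfl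
    rw [hY, ht, pow_add Θ P Q]; simp only [Matrix.mul_assoc]
  have id1 : PP Θ m B Q * B ^ (f + t + P) + (G12 + G1) = PP Θ m B t * B ^ (f + t) := by
    rw [id0, hY, PP_right, PP_left, show t = Q + P by omega, PP_add', Matrix.add_mul, add_comm,
      Matrix.mul_assoc (PP Θ m B Q), ← pow_add, show f + (Q + P) + P = P + (f + (Q + P)) by ring]
  have d2a : Pth Θ B (x * B ^ t) (Y' * B ^ P) (PP Θ x B u * B ^ (w + P)) := by
    refine (adv (Θ := Θ) (B := B) u (w + P) 0 x).cast ?_ ?_ rfl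
    · rw [zero_add, show u + (w + P) = t by omega]
    · rw [zero_add, hY', Matrix.mul_assoc (Θ ^ u * x), ← pow_add]
  have d2b := toN (Θ := Θ) (B := B) Y' P
  have c31 := fromN (Θ := Θ) (B := B) Y' P
  have id0' := NN_total (Θ := Θ) (B := B) Y' P
  obtain ⟨G22, hG22⟩ : ∃ G, G = ∑ s ∈ Finset.range (P + 1), PP Θ (yy Y' P) B s * B ^ (P - s) :=
    ⟨_, rfl⟩
  obtain ⟨F31, hF31⟩ : ∃ G, G = (∑ s ∈ Finset.range (P + 1), PP Θ (Θ ^ s * yy Y' P) B (P - s)) +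
    PP Θ (ww Y' P) B P := ⟨_, rfl⟩
  rw [← hG22] at d2b id0'
  rw [← hF31] at c31 id0'
  have d2 : Pth Θ B (x * B ^ t) (NN Θ B Y' P) (PP Θ x B u * B ^ (w + P) + G22) := d2a.trans d2b
  obtain ⟨G2, hG2⟩ : ∃ G, G = PP Θ x B u * B ^ (w + P) + G22 := ⟨_, rfl⟩
  rw [← hG2] at d2
  have c32 : Pth Θ B (Θ ^ P * Y') (Θ ^ (t + t + e) * m') (PP Θ (Θ ^ P * (Θ ^ u * x)) B w) := by
    have h := adv (Θ := Θ) (B := B) w 0 0 (Θ ^ P * (Θ ^ u * x))
    rw [Nat.add_zero, pow_zero, Matrix.mul_one, Matrix.mul_one, zero_add, zero_add] at h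
    refine h.cast ?_ ?_ rfl
    · rw [hY']; simp only [Matrix.mul_assoc]
    · rw [hx]; simp only [← Matrix.mul_assoc, ← pow_add]
      rw [show w + (P + (u + (t + e))) = t + t + e by omega]
  have id2 : G2 + (F31 + PP Θ (Θ ^ P * (Θ ^ u * x)) B w) = PP Θ x B t := by
    have e1 : G22 + F31 = Θ ^ u * PP Θ x B P * B ^ w := by
      rw [id0', hY', PP_right, PP_left]
    have e2 : PP Θ (Θ ^ P * (Θ ^ u * x)) B w = Θ ^ u * (Θ ^ P * PP Θ x B w) := by
      rw [PP_left, PP_left, ← Matrix.mul_assoc, ← Matrix.mul_assoc, ← pow_add, ← pow_add,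
        add_comm P u]
    have e3 : PP Θ x B t = Θ ^ u * (Θ ^ P * PP Θ x B w + PP Θ x B P * B ^ w) +
        PP Θ x B u * B ^ (w + P) := by
      rw [show t = u + (P + w) by omega, PP_add', PP_add', add_comm w P]
    rw [hG2, e2, e3, Matrix.mul_add, ← Matrix.mul_assoc (Θ ^ u) (PP Θ x B P), ← e1]
    abel
  -- the middle part
  obtain ⟨M, hM⟩ : ∃ M, M = Θ ^ t * r * B ^ t := ⟨_, rfl⟩
  have eM : x * B ^ t + M * B = Θ ^ t * m * B ^ (f + t) + Θ * M := by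
    have h1 : M * B = Θ ^ t * (r * B) * B ^ t := by
      rw [hM]; simp only [Matrix.mul_assoc]
      rw [← pow_succ, ← pow_succ']
    have h2 : Θ * M = Θ ^ t * (Θ * r) * B ^ t := by
      rw [hM]; simp only [← Matrix.mul_assoc]
      rw [← pow_succ, ← pow_succ']
    have h3 : x * B ^ t = Θ ^ t * (Θ ^ e * m') * B ^ t := by
      rw [hx, pow_add]; simp only [Matrix.mul_assoc]
    have h4 : Θ ^ t * m * B ^ (f + t) = Θ ^ t * (m * B ^ f) * B ^ t := by
      rw [pow_add]; simp only [Matrix.mul_assoc]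
    rw [h1, h2, h3, h4, ← Matrix.add_mul, ← Matrix.mul_add, bd.q1, Matrix.mul_add,
      Matrix.add_mul]
  obtain ⟨q, hq⟩ : ∃ q, q = G1 + (M + G2) := ⟨_, rfl⟩
  have he : NN Θ B Y' P + q * B = NN Θ B Y P + Θ * q := by
    have h1 := d1'.eq
    have h2 := d2.eq
    calc NN Θ B Y' P + q * B = (NN Θ B Y' P + G2 * B) + (M * B + G1 * B) := by
          rw [hq, Matrix.add_mul, Matrix.add_mul]; abel
      _ = (x * B ^ t + M * B) + (Θ * G2 + G1 * B) := by rw [h2]; abel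
      _ = (Θ ^ t * m * B ^ (f + t) + G1 * B) + (Θ * M + Θ * G2) := by rw [eM]; abel
      _ = NN Θ B Y P + Θ * q := by
          rw [h1, hq, Matrix.mul_add, Matrix.mul_add]; abel
  -- the support of `q`
  have hsup1 : ∀ i b, q i b ≠ 0 → Up D (f + (D - 1)) Θ m B i b := by
    intro i b h
    have h0 : G1 i b ≠ 0 ∨ M i b ≠ 0 ∨ G2 i b ≠ 0 := by
      by_contra hcon
      push Not at hcon
      apply h
      rw [hq]
      change G1 i b + (M i b + G2 i b) = 0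
      omega
    rcases h0 with h0 | h0 | h0
    · have h1 := congrFun (congrFun id1 i) b
      change (PP Θ m B Q * B ^ (f + t + P)) i b + (G12 i b + G1 i b) = _ at h1
      have h2 : (PP Θ m B t * B ^ (f + t)) i b ≠ 0 := by omega
      obtain ⟨b1, h3, h4⟩ := mex h2
      obtain ⟨t', ht', h5⟩ := PP_up (D := D) h3
      refine (h5.right h4).mod ?_
      have h6 : t' + (f + t) + D ≡ f + (D - 1) + D [MOD D] := by
        rw [show t' + (f + t) + D = f + (D - 1) + (t + t) by have := hD.pos; omega]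
        exact (dvd_modEq (hDt.add hDt) _).trans (dvd_modEq dvd_rfl _).symm
      exact Nat.ModEq.add_right_cancel' D h6
    · rw [hM] at h0
      obtain ⟨b1, h1, h2⟩ := mex h0
      obtain ⟨i1, h3, h4⟩ := mex h1
      refine (((bd.r1 hD h4).left h3).right h2).mod ?_
      rw [add_assoc _ t t]
      exact dvd_modEq (hDt.add hDt) _
    · have h1 := congrFun (congrFun id2 i) b
      change G2 i b + (F31 i b + PP Θ (Θ ^ P * (Θ ^ u * x)) B w i b) = _ at h1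
      have h2 : PP Θ x B t i b ≠ 0 := by omega
      rw [hx, PP_left] at h2
      obtain ⟨i1, h3, h4⟩ := mex h2
      obtain ⟨t', ht', h5⟩ := PP_up (D := D) h4
      refine bd.up1 hD ((h5.left h3).mod ?_)
      have h6 : t' + (t + e) + D ≡ e + (D - 1) + D [MOD D] := by
        rw [show t' + (t + e) + D = e + (D - 1) + (t + t) by have := hD.pos; omega]
        exact (dvd_modEq (hDt.add hDt) _).trans (dvd_modEq dvd_rfl _).symm
      exact Nat.ModEq.add_right_cancel' D h6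
  have hpath : Pth Θ B (NN Θ B Y P) (NN Θ B Y' P) q := by
    have m1 : Q + (f + t) + P ≡ f [MOD D] := by
      rw [show Q + (f + t) + P = f + (t + t) by omega]
      exact dvd_modEq (hDt.add hDt) _
    have t1 := g1 Q (f + t) (by omega) (by omega) hDQ m1
    have m2 : u + (t + e) + w + P ≡ e [MOD D] := by
      rw [show u + (t + e) + w + P = e + (t + t) by omega]
      exact dvd_modEq (hDt.add hDt) _
    have t2 := g2 (u + (t + e)) w (by omega) (by omega) (by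
      rw [show u + (t + e) = t + (u + e) by ring, hue]
      exact hDt.add (Dvd.intro _ rfl)) m2
    have eY' : Θ ^ (u + (t + e)) * m' * B ^ w = Y' := by
      rw [hY', hx, pow_add]; simp only [Matrix.mul_assoc]
    rw [← hY] at t1
    rw [eY'] at t2
    refine path3 _ _ _ (Up D f Θ m B) gro1.sta hsup1 ?_ ?_ ?_ he
    · intro i b b' h1 h2
      exact ((hsup1 i b h1).right (s := 1) (by rw [pow_one]; exact h2)).mod (shift1 hD.pos f)
    · intro i b hU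
      rcases (t1 i b).1 hU with ⟨s, i', b', k1, k2, k3, k4⟩ | k1
      · have n1 := NN_big (Θ := Θ) (B := B) k1 k2 k3 k4
        rcases (t2 i b).1 (bd.up2 hD (x := 0) hU) with ⟨s', i'', b'', l1, l2, l3, l4⟩ | l1
        · have n2 := NN_big (Θ := Θ) (B := B) l1 l2 l3 l4
          left
          constructor <;> omega
        · exact Or.inr l1
      · exact Or.inr k1
    · intro i b hb
      obtain ⟨k, hk⟩ := (t1 i b).2 hb
      refine ⟨k, NN_one3 hk ?_⟩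
      rw [hP]
      exact cl (hD.b1 _) p
  have hall : Pth Θ B (m * B ^ (f + t + t)) (Θ ^ (t + t + e) * m')
      (PP Θ m B t * B ^ (f + t) + M + PP Θ x B t) := by
    refine ((((c11.trans c12).trans hpath).trans c31).trans c32).cast rfl rfl ?_
    rw [← id1, ← id2, hq]
    abel
  refine ⟨t + t, ?_⟩
  have k1 := (powCH ⟨β, B⟩ (f + t + t)).lift Θ m
  have k3 := downCH Θ B (t + t + e) m'
  have c := (CH.trans k1 hall).trans k3
  convert c using 1
  have e1 : (fromBlocks Θ m 0 B) ^ (t + t) * fromBlocks (Θ ^ e) r 0 (B ^ f) =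
      (fromBlocks Θ m 0 B) ^ t * fromBlocks (Θ ^ e) r 0 (B ^ f) * (fromBlocks Θ m' 0 B) ^ t := by
    rw [pow_add, Matrix.mul_assoc, Matrix.mul_assoc, semiconj_pow _ _ _ hAR t]
  rw [e1, block_pow, block_pow, up', up', up', up']
  have e2 : PP Θ x B t = Θ ^ t * Θ ^ e * PP Θ m' B t := by
    rw [hx, PP_left, pow_add]
  rw [e2, hM]
  congr 1
  · rw [Matrix.one_mul, Matrix.one_mul, ← pow_add, ← pow_add]
    congr 1; ring
  · have e3 : (Θ ^ t * r + PP Θ m B t * B ^ f) * B ^ t =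
        Θ ^ t * r * B ^ t + PP Θ m B t * B ^ (f + t) := by
      rw [Matrix.add_mul, Matrix.mul_assoc (PP Θ m B t), ← pow_add]
    rw [e3]
    simp only [Matrix.one_mul, Matrix.mul_one, Matrix.mul_zero, Matrix.zero_mul, add_zero,
      zero_add]
    abel
  · rw [Matrix.mul_one, Matrix.mul_one, ← pow_add, ← pow_add]
    congr 1; ring

end

end Run7.h850.SC
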