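import Pool.Agent.Run7.h850.SC.Block3
import Pool.Agent.Run7.h850.SS.Core2

/-!
# Glueing and the induction over the components
-/

set_option autoImplicit false
set_option linter.unusedSectionVars false
set_option linter.unusedVariables false

namespace Run7.h850.SC

open Matrix Pool.Agent.H812R2.SSE
open Run7.h850.SS hiding Bo Gw Fam PB fam_pb core2 loc_glob glue block_step gd_sub gd_blocks fam_iso' reduce3 gw_of_gd
open Run7.h850.SG (Two)

theorem glue {γ γ' α β : Type} [Fintype γ] [DecidableEq γ] [Fintype γ'] [DecidableEq γ']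
    [Fintype α] [DecidableEq α] [Fintype β] [DecidableEq β]
    (Θ : Matrix γ γ ℕ) (m : Matrix γ α ℕ) (A1 : Matrix α α ℕ)
    (Θ' : Matrix γ' γ' ℕ) (m' : Matrix γ' β ℕ) (B1 : Matrix β β ℕ)
    (r0 : Matrix γ γ' ℕ) (r12 : Matrix γ β ℕ) (R2 : Matrix α β ℕ)
    (s0 : Matrix γ' γ ℕ) (s12 : Matrix γ' α ℕ) (S2 : Matrix β α ℕ) (l : ℕ)
    (kAR : fromBlocks Θ m 0 A1 * fromBlocks r0 r12 0 R2 =
      fromBlocks r0 r12 0 R2 * fromBlocks Θ' m' 0 B1)
    (kSA : fromBlocks s0 s12 0 S2 * fromBlocks Θ m 0 A1 =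
      fromBlocks Θ' m' 0 B1 * fromBlocks s0 s12 0 S2)
    (kRS : fromBlocks r0 r12 0 R2 * fromBlocks s0 s12 0 S2 = (fromBlocks Θ m 0 A1) ^ l)
    (kSR : fromBlocks s0 s12 0 S2 * fromBlocks r0 r12 0 R2 = (fromBlocks Θ' m' 0 B1) ^ l)
    (hΘ : SC.Bo Θ) (hΘ' : SC.Bo Θ') (hB : ∀ b, Rec B1 b) (t1 t2 : ℕ)
    (c1 : CH ⟨γ, Θ⟩ ⟨γ', Θ'⟩ (Θ ^ t1 * r0)) (c2 : CH ⟨α, A1⟩ ⟨β, B1⟩ (A1 ^ t2 * R2)) :
    ∃ T, CH (XO Θ m A1) (XO Θ' m' B1)
      ((fromBlocks Θ m 0 A1) ^ T * fromBlocks r0 r12 0 R2) := by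
  -- block equations
  have k1 := kAR
  have k2 := kSA
  have k3 := kRS
  have k4 := kSR
  rw [up, up] at k1 k2
  rw [up, block_pow] at k3 k4
  obtain ⟨e1, -, e2⟩ := blk k1
  obtain ⟨e3, -, e4⟩ := blk k2
  obtain ⟨e5, -, e6⟩ := blk k3
  obtain ⟨e7, -, e8⟩ := blk k4
  -- the chain
  have d2 := c2.lift Θ m
  obtain ⟨Z', z, n, d1⟩ := replace' c1 B1 (m * (A1 ^ t2 * R2))
  have cc := d2.trans d1
  obtain ⟨ρ, hρ⟩ : ∃ ρ, ρ = fromBlocks (1 : Matrix γ γ ℕ) 0 0 (A1 ^ t2 * R2) *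
    fromBlocks (Θ ^ t1 * r0) z 0 (B1 ^ n) := ⟨_, rfl⟩
  have hρ' : ρ = fromBlocks (Θ ^ t1 * r0) z 0 (A1 ^ t2 * R2 * B1 ^ n) := by
    rw [hρ, Matrix.fromBlocks_multiply]
    simp
  change CH (XO Θ m A1) (XO Θ' Z' B1) _ at cc
  rw [← hρ] at cc
  obtain ⟨a1, ρs, a, a2, a3, a4, a5⟩ := cc.rev'
  change fromBlocks Θ m 0 A1 * ρ = ρ * fromBlocks Θ' Z' 0 B1 at a1
  change ρ * ρs = (fromBlocks Θ m 0 A1) ^ a at a3
  change ρs * ρ = (fromBlocks Θ' Z' 0 B1) ^ a at a4
  change fromBlocks Θ' Z' 0 B1 * ρs = ρs * fromBlocks Θ m 0 A1 at a5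
  -- the block form of the reverse product
  have hz : ∀ b c, ρs (Sum.inr b) (Sum.inl c) = 0 := by
    intro b c
    by_contra hne
    obtain ⟨M, hM, _, hk0⟩ := (hΘ.rec c).large (t1 + l)
    obtain ⟨k0, rfl⟩ : ∃ k0, M = t1 + l + k0 := ⟨M - (t1 + l), by omega⟩
    have h1 : (Θ ^ t1 * r0 * (s0 * Θ ^ k0)) c c ≠ 0 := by
      have : Θ ^ t1 * r0 * (s0 * Θ ^ k0) = Θ ^ (t1 + l + k0) := by
        rw [Matrix.mul_assoc, ← Matrix.mul_assoc r0, e5, ← pow_add, ← pow_add]
        congr 1; ring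
      rw [this]
      exact hk0
    obtain ⟨c', h2, _⟩ := mex h1
    have h3 : (ρs * ρ) (Sum.inr b) (Sum.inl c') ≠ 0 := by
      refine mne (b := Sum.inl c) hne ?_
      rw [hρ']
      exact h2
    rw [a4, block_pow] at h3
    exact h3 rfl
  obtain ⟨x, z', y, hx⟩ : ∃ (x : Matrix γ' γ ℕ) (z' : Matrix γ' α ℕ) (y : Matrix β α ℕ),
      ρs = fromBlocks x z' 0 y := by
    refine ⟨ρs.toBlocks₁₁, ρs.toBlocks₁₂, ρs.toBlocks₂₂, ?_⟩
    have : ρs.toBlocks₂₁ = 0 := by
      ext b c; exact hz b c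
    conv_lhs => rw [← Matrix.fromBlocks_toBlocks ρs, this]
  have k5 : fromBlocks (Θ ^ t1 * r0) z 0 (A1 ^ t2 * R2 * B1 ^ n) * fromBlocks x z' 0 y =
      (fromBlocks Θ m 0 A1) ^ a := by rw [← hρ', ← hx]; exact a3
  rw [up, block_pow] at k5
  obtain ⟨g1, -, g2⟩ := blk k5
  -- the new shift equivalence
  obtain ⟨w1, hw1⟩ : ∃ w1, w1 = x * r0 := ⟨_, rfl⟩
  obtain ⟨w2, hw2⟩ : ∃ w2, w2 = y * R2 := ⟨_, rfl⟩
  have f1 : Θ' ^ (t1 + l) * w1 = Θ' ^ (l + a) := by
    have h1 : s0 * (Θ ^ t1 * r0) = Θ' ^ (t1 + l) := by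
      rw [← Matrix.mul_assoc, ← semiconj_pow _ _ _ e3.symm, Matrix.mul_assoc, e7, ← pow_add]
    rw [← h1, hw1]
    calc s0 * (Θ ^ t1 * r0) * (x * r0) = s0 * ((Θ ^ t1 * r0 * x) * r0) := by
          simp only [Matrix.mul_assoc]
      _ = s0 * (Θ ^ a * r0) := by rw [g1]
      _ = Θ' ^ (l + a) := by
          rw [semiconj_pow _ _ _ e1, ← Matrix.mul_assoc, e7, ← pow_add]
  have f2 : B1 ^ (t2 + l + n) * w2 = B1 ^ (l + a) := by
    have h1 : S2 * (A1 ^ t2 * R2 * B1 ^ n) = B1 ^ (t2 + l + n) := by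
      rw [← Matrix.mul_assoc, ← Matrix.mul_assoc, ← semiconj_pow _ _ _ e4.symm,
        Matrix.mul_assoc (B1 ^ t2), e8, ← pow_add, ← pow_add]
    rw [← h1, hw2]
    calc S2 * (A1 ^ t2 * R2 * B1 ^ n) * (y * R2) =
          S2 * ((A1 ^ t2 * R2 * B1 ^ n * y) * R2) := by simp only [Matrix.mul_assoc]
      _ = S2 * (A1 ^ a * R2) := by rw [g2]
      _ = B1 ^ (l + a) := by
          rw [semiconj_pow _ _ _ e2, ← Matrix.mul_assoc, e8, ← pow_add]
  obtain ⟨A', hA'⟩ : ∃ A', A' = fromBlocks Θ' Z' 0 B1 := ⟨_, rfl⟩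
  obtain ⟨A_, hA_⟩ : ∃ A_, A_ = fromBlocks Θ m 0 A1 := ⟨_, rfl⟩
  obtain ⟨B_, hB_⟩ : ∃ B_, B_ = fromBlocks Θ' m' 0 B1 := ⟨_, rfl⟩
  obtain ⟨R_, hR_⟩ : ∃ R_, R_ = fromBlocks r0 r12 0 R2 := ⟨_, rfl⟩
  obtain ⟨S_, hS_⟩ : ∃ S_, S_ = fromBlocks s0 s12 0 S2 := ⟨_, rfl⟩
  rw [← hA_, ← hR_, ← hB_] at kAR
  rw [← hA_, ← hS_, ← hB_] at kSA
  rw [← hA_, ← hS_, ← hR_] at kRS
  rw [← hB_, ← hS_, ← hR_] at kSR
  rw [← hA_, ← hA'] at a1 a5
  rw [← hA_] at a3
  rw [← hA'] at a4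
  obtain ⟨N0, hN0⟩ : ∃ N0, N0 = t1 + t2 + n + l := ⟨_, rfl⟩
  obtain ⟨W, hW⟩ : ∃ W, W = A' ^ N0 * (ρs * R_) := ⟨_, rfl⟩
  obtain ⟨S', hS'⟩ : ∃ S', S' = S_ * ρ := ⟨_, rfl⟩
  have p1 : W * S' = A' ^ (N0 + l + a) := by
    calc W * S' = A' ^ N0 * (ρs * (R_ * S_) * ρ) := by
          rw [hW, hS']; simp only [Matrix.mul_assoc]
      _ = A' ^ N0 * (A' ^ l * (ρs * ρ)) := by
          rw [kRS, ← semiconj_pow _ _ _ a5, Matrix.mul_assoc]
      _ = A' ^ (N0 + l + a) := by rw [a4, ← pow_add, ← pow_add]; congr 1; ring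
  have p2 : S' * W = B_ ^ (N0 + l + a) := by
    calc S' * W = S_ * (ρ * A' ^ N0) * (ρs * R_) := by
          rw [hW, hS']; simp only [Matrix.mul_assoc]
      _ = S_ * (A_ ^ N0 * (ρ * ρs)) * R_ := by
          rw [← semiconj_pow _ _ _ a1]; simp only [Matrix.mul_assoc]
      _ = S_ * A_ ^ (N0 + a) * R_ := by rw [a3, ← pow_add]
      _ = B_ ^ (N0 + l + a) := by
          rw [← semiconj_pow _ _ _ kSA.symm, Matrix.mul_assoc, kSR, ← pow_add]; congr 1; ring
  have p3 : A' * W = W * B_ := by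
    calc A' * W = A' ^ N0 * (A' * ρs * R_) := by
          rw [hW, ← Matrix.mul_assoc, ← pow_succ', pow_succ]; simp only [Matrix.mul_assoc]
      _ = A' ^ N0 * (ρs * (A_ * R_)) := by rw [a5]; simp only [Matrix.mul_assoc]
      _ = W * B_ := by rw [kAR, hW]; simp only [Matrix.mul_assoc]
  have p4 : S' * A' = B_ * S' := by
    rw [hS', Matrix.mul_assoc, ← a1, ← Matrix.mul_assoc, kSA, Matrix.mul_assoc]
  obtain ⟨w, hw⟩ : ∃ w, W = fromBlocks (Θ' ^ (t2 + n + (l + a))) w 0 (B1 ^ (t1 + (l + a))) := by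
    have h1 : Θ' ^ N0 * w1 = Θ' ^ (t2 + n + (l + a)) := by
      rw [pow_add _ (t2 + n), ← f1, ← Matrix.mul_assoc, ← pow_add, hN0]
      congr 2; ring
    have h2 : B1 ^ N0 * w2 = B1 ^ (t1 + (l + a)) := by
      rw [pow_add _ t1, ← f2, ← Matrix.mul_assoc, ← pow_add, hN0]
      congr 2; ring
    have h3 : W = fromBlocks (Θ' ^ N0 * (x * r0)) (Θ' ^ N0 * (x * r12 + z' * R2) +
        PP Θ' Z' B1 N0 * (y * R2)) 0 (B1 ^ N0 * (y * R2)) := by
      rw [hW, hA', block_pow, hx, hR_, up, up]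
    refine ⟨Θ' ^ N0 * (x * r12 + z' * R2) + PP Θ' Z' B1 N0 * (y * R2), ?_⟩
    rw [hw1] at h1
    rw [hw2] at h2
    rw [h3, h1, h2]
  obtain ⟨v0, v12, V2, hv⟩ : ∃ v0 v12 V2, S' = fromBlocks v0 v12 0 V2 := by
    rw [hS', hS_, hρ', up]
    exact ⟨_, _, _, rfl⟩
  rw [hA', hB_, hw] at p3
  rw [hA', hB_, hv] at p4
  rw [hA', hw, hv] at p1
  rw [hB_, hw, hv] at p2
  obtain ⟨T, c3⟩ := SC.block_step hΘ' hB _ _ _ w v0 v12 V2 p3 p1 p2
  refine ⟨T + N0 + a, ?_⟩
  have c := cc.trans c3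
  convert c using 1
  rw [← hw, ← hA', ← hA_, ← hR_, hW]
  symm
  calc ρ * (A' ^ T * (A' ^ N0 * (ρs * R_))) = ρ * A' ^ (T + N0) * (ρs * R_) := by
        rw [pow_add]; simp only [Matrix.mul_assoc]
    _ = A_ ^ (T + N0) * (ρ * ρs) * R_ := by
        rw [← semiconj_pow _ _ _ a1]; simp only [Matrix.mul_assoc]
    _ = A_ ^ (T + N0 + a) * R_ := by rw [a3, ← pow_add]


/-- a good family: closed under renaming, irreducible, with growth at every state or a permutation matrix -/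
structure Fam (P : Obj → Prop) : Prop where
  iso : ∀ (X : Obj) (α : Type) [Fintype α] [DecidableEq α] (e : X.ι ≃ α), P X →
    P ⟨α, X.M.submatrix e.symm e.symm⟩
  bo : ∀ X, P X → SC.Bo X.M
  irr : ∀ X, P X → ∀ a b, Rch X.M a b

/-- irreducible, with growth at every state or a permutation matrix -/
def PB (X : Obj) : Prop := SC.Bo X.M ∧ ∀ a b, Rch X.M a b

theorem fam_pb : Fam PB where
  iso X α _ _ e h := by
    obtain ⟨h, h'⟩ := h
    refine ⟨?_, ?_⟩
    · rcases h with h | ⟨σ, h⟩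
      · left
        intro c
        obtain ⟨N, hN, h1⟩ := h (e.symm c)
        refine ⟨N, hN, ?_⟩
        change 2 ≤ ((X.M.submatrix e.symm e.symm) ^ N) c c
        rw [← submatrix_pow]
        exact h1
      · right
        refine ⟨(e.symm.trans σ).trans e, fun i c => ?_⟩
        change X.M (e.symm i) (e.symm c) = if c = e (σ (e.symm i)) then 1 else 0
        rw [h]
        by_cases hc : c = e (σ (e.symm i))
        · rw [if_pos hc, if_pos (by rw [hc, Equiv.symm_apply_apply])]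
        · rw [if_neg hc, if_neg (fun h0 => hc (by rw [← h0, Equiv.apply_symm_apply]))]
    · intro a b
      obtain ⟨k, hk⟩ := h' (e.symm a) (e.symm b)
      refine ⟨k, ?_⟩
      change ((X.M.submatrix e.symm e.symm) ^ k) a b ≠ 0
      rw [← submatrix_pow]
      exact hk
  bo X h := h.1
  irr X h := h.2

variable {P : Obj → Prop}

theorem gw_of_gd (hP : Fam P) {α : Type} [Fintype α] [DecidableEq α] {A : Matrix α α ℕ}
    (hA : Gd P A) : ∀ i, Rec A i := by
  intro i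
  obtain ⟨N, hN, h1⟩ := (hP.bo _ (hA i)).rec ⟨i, Mut.refl A i⟩
  exact ⟨N, hN, @sub_pow_ne α _ _ A (fun j => Mut A i j) (compO A i).fin
      (compO A i).dec (compO A i).M (fun _ _ => rfl) N ⟨i, Mut.refl A i⟩ ⟨i, Mut.refl A i⟩ h1⟩

/-- removing a set of states closed under predecessors -/
theorem gd_sub (hP : Fam P) {α : Type} [Fintype α] [DecidableEq α] {A : Matrix α α ℕ}
    (hA : Gd P A) (p : α → Prop) (hpred : ∀ w u, A w u ≠ 0 → p u → p w)
    [Fintype {u // ¬ p u}] [DecidableEq {u // ¬ p u}] :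
    Gd P (fun u v : {u // ¬ p u} => A u.1 v.1) := by
  classical
  intro i
  set A1 : Matrix {u // ¬ p u} {u // ¬ p u} ℕ := fun u v => A u.1 v.1 with hA1
  have hpredk : ∀ (k : ℕ) w u, (A ^ k) w u ≠ 0 → p u → p w := by
    intro k
    induction k with
    | zero => intro w u h hu; rwa [pow_zero_ne h]
    | succ k ih =>
      intro w u h hu
      rw [pow_succ] at h
      obtain ⟨v, h1, h2⟩ := mex h
      exact ih w v h1 (hpred v u h2 hu)
  have hback : ∀ (k : ℕ) (a b : {u // ¬ p u}), (A ^ k) a.1 b.1 ≠ 0 → (A1 ^ k) a b ≠ 0 := by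
    intro k
    induction k with
    | zero =>
      intro a b h
      have : a = b := Subtype.ext (pow_zero_ne h)
      rw [this, pow_zero, Matrix.one_apply_eq]
      exact one_ne_zero
    | succ k ih =>
      intro a b h
      rw [pow_succ] at h
      obtain ⟨w, h1, h2⟩ := mex h
      have hw : ¬ p w := fun hw => a.2 (hpredk k a.1 w h1 hw)
      rw [pow_succ]
      exact mne (b := ⟨w, hw⟩) (ih a ⟨w, hw⟩ h1) h2
  have hR1 : ∀ a b : {u // ¬ p u}, Rch A1 a b ↔ Rch A a.1 b.1 := by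
    intro a b
    constructor
    · rintro ⟨k, hk⟩
      exact ⟨k, sub_pow_ne A _ A1 (fun _ _ => rfl) k a b hk⟩
    · rintro ⟨k, hk⟩
      exact ⟨k, hback k a b hk⟩
  have hM1 : ∀ a b : {u // ¬ p u}, Mut A1 a b ↔ Mut A a.1 b.1 := by
    intro a b
    unfold Mut
    rw [hR1, hR1]
  have hcl : ∀ a b : α, ¬ p a → Mut A a b → ¬ p b := by
    rintro a b ha ⟨⟨k, hk⟩, _⟩ hb
    exact ha (hpredk k a b hk hb)
  let ε : {j // Mut A i.1 j} ≃ {j : {u // ¬ p u} // Mut A1 i j} :=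
    { toFun := fun j => ⟨⟨j.1, hcl i.1 j.1 i.2 j.2⟩, (hM1 _ _).2 j.2⟩
      invFun := fun j => ⟨j.1.1, (hM1 _ _).1 j.2⟩
      left_inv := fun j => rfl
      right_inv := fun j => rfl }
  exact @Fam.iso P hP (compO A i.1) {j : {u // ¬ p u} // Mut A1 i j} (compO A1 i).fin
    (compO A1 i).dec ε (hA i.1)

theorem fam_iso' (hP : Fam P) {X : Obj} {α : Type} [iF : Fintype α] [iD : DecidableEq α]
    (e : X.ι ≃ α) (hX : P X) (M : Matrix α α ℕ) (hM : ∀ a b, M (e a) (e b) = X.M a b) :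
    P ⟨α, M⟩ := by
  have h := hP.iso X α e hX
  have e1 : X.M.submatrix e.symm e.symm = M := by
    ext a b
    rw [Matrix.submatrix_apply, ← hM, Equiv.apply_symm_apply, Equiv.apply_symm_apply]
  rw [e1] at h
  exact h

theorem gd_blocks (hP : Fam P) {X Y : Obj} (hX : P X) (hY : Gd P Y.M) (Z : Matrix X.ι Y.ι ℕ) :
    Gd P (fromBlocks X.M Z 0 Y.M) := by
  classical
  have q1 : ∀ (k : ℕ) a b, ((fromBlocks X.M Z 0 Y.M) ^ k) (Sum.inl a) (Sum.inl b) =
      (X.M ^ k) a b := by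
    intro k a b; rw [block_pow]; rfl
  have q2 : ∀ (k : ℕ) a b, ((fromBlocks X.M Z 0 Y.M) ^ k) (Sum.inr a) (Sum.inr b) =
      (Y.M ^ k) a b := by
    intro k a b; rw [block_pow]; rfl
  have q3 : ∀ (k : ℕ) a b, ((fromBlocks X.M Z 0 Y.M) ^ k) (Sum.inr a) (Sum.inl b) = 0 := by
    intro k a b; rw [block_pow]; rfl
  rintro (x | y)
  · have hall : ∀ a b, Rch (fromBlocks X.M Z 0 Y.M) (Sum.inl a) (Sum.inl b) := by
      intro a b
      obtain ⟨k, hk⟩ := hP.irr X hX a b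
      exact ⟨k, by rw [q1]; exact hk⟩
    let ε : X.ι ≃ {j // Mut (fromBlocks X.M Z 0 Y.M) (Sum.inl x) j} :=
      Equiv.ofBijective (fun a => ⟨Sum.inl a, hall x a, hall a x⟩)
        ⟨fun a b hab => Sum.inl_injective (congrArg Subtype.val hab), fun j => by
          obtain ⟨j, hj⟩ := j
          rcases j with j | j
          · exact ⟨j, rfl⟩
          · obtain ⟨_, k, hk⟩ := hj
            exact absurd (q3 k j x) hk⟩
    exact @fam_iso' P hP X {j // Mut (fromBlocks X.M Z 0 Y.M) (Sum.inl x) j}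
      (compO (fromBlocks X.M Z 0 Y.M) (Sum.inl x)).fin
      (compO (fromBlocks X.M Z 0 Y.M) (Sum.inl x)).dec ε hX
      (compO (fromBlocks X.M Z 0 Y.M) (Sum.inl x)).M (fun a b => rfl)
  · have hR : ∀ a b, Rch (fromBlocks X.M Z 0 Y.M) (Sum.inr a) (Sum.inr b) ↔ Rch Y.M a b := by
      intro a b
      unfold Rch
      simp only [q2]
    let ε : {j // Mut Y.M y j} ≃ {j // Mut (fromBlocks X.M Z 0 Y.M) (Sum.inr y) j} :=
      Equiv.ofBijective (fun a => ⟨Sum.inr a.1, (hR _ _).2 a.2.1, (hR _ _).2 a.2.2⟩)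
        ⟨fun a b hab => Subtype.ext (Sum.inr_injective (congrArg Subtype.val hab)), fun j => by
          obtain ⟨j, hj⟩ := j
          rcases j with j | j
          · obtain ⟨⟨k, hk⟩, _⟩ := hj
            exact absurd (q3 k y j) hk
          · exact ⟨⟨j, (hR _ _).1 hj.1, (hR _ _).1 hj.2⟩, rfl⟩⟩
    exact @fam_iso' P hP (compO Y.M y) {j // Mut (fromBlocks X.M Z 0 Y.M) (Sum.inr y) j}
      (compO (fromBlocks X.M Z 0 Y.M) (Sum.inr y)).fin
      (compO (fromBlocks X.M Z 0 Y.M) (Sum.inr y)).dec ε (hY y)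
      (compO (fromBlocks X.M Z 0 Y.M) (Sum.inr y)).M (fun a b => rfl)

theorem reduce3 (hP : Fam P) : ∀ (N : ℕ) (α : Type) [Fintype α] [DecidableEq α]
    (A : Matrix α α ℕ) (_ : ∀ i, Wand A i ∨ Sg P (compO A i)), Fintype.card α = N →
    ∃ (Y : Obj) (ρ : Matrix α Y.ι ℕ), Gd P Y.M ∧ CH ⟨α, A⟩ Y ρ := by
  intro N
  induction N using Nat.strong_induction_on with
  | _ N ih =>
  intro α _ _ A hA hN
  classical
  rcases isEmpty_or_nonempty α with hα | hα
  · exact ⟨⟨α, A⟩, 1, fun i => hα.elim i, CH.refl _⟩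
  · obtain ⟨u0, _, hu0⟩ := Finset.exists_min_image (Finset.univ : Finset α)
      (fun i => (Finset.univ.filter (fun w => Rch A w i)).card)
      (by obtain ⟨a⟩ := hα; exact ⟨a, Finset.mem_univ _⟩)
    obtain ⟨p, hp⟩ : ∃ p : α → Prop, p = fun u => Mut A u0 u := ⟨_, rfl⟩
    have hpred : ∀ w u, A w u ≠ 0 → p u → p w := by
      intro w u hwu hu
      rw [hp] at hu ⊢
      have h1 : (Finset.univ.filter (fun x => Rch A x w)) ⊆
          (Finset.univ.filter (fun x => Rch A x u)) := by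
        intro x
        simp only [Finset.mem_filter, Finset.mem_univ, true_and]
        exact fun h => h.trans (Rch.edge hwu)
      have h2 : (Finset.univ.filter (fun x => Rch A x u)) =
          (Finset.univ.filter (fun x => Rch A x u0)) := by
        ext x
        simp only [Finset.mem_filter, Finset.mem_univ, true_and]
        exact ⟨fun h => h.trans hu.2, fun h => h.trans hu.1⟩
      have h3 : (Finset.univ.filter (fun x => Rch A x u)).card ≤
          (Finset.univ.filter (fun x => Rch A x w)).card := by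
        rw [h2]; exact hu0 w (Finset.mem_univ _)
      have h4 := Finset.eq_of_subset_of_card_le h1 h3
      have h5 : u ∈ Finset.univ.filter (fun x => Rch A x w) := by
        rw [h4]; simp [Rch.refl]
      simp only [Finset.mem_filter, Finset.mem_univ, true_and] at h5
      exact Mut.trans hu ⟨h5, Rch.edge hwu⟩
    rcases hA u0 with hw0 | hs0
    · -- a state on no closed path, with no predecessor
      have hcol : ∀ v, A v u0 = 0 := by
        intro v
        by_contra hne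
        have h1 := hpred v u0 hne (by rw [hp]; exact Mut.refl A u0)
        rw [hp] at h1
        obtain ⟨⟨k, hk⟩, _⟩ := h1
        have h2 : (A ^ (k + 1)) u0 u0 ≠ 0 := by
          rw [pow_succ]; exact mne hk hne
        exact h2 (hw0 (k + 1) (by omega))
      have c := remove A u0 hcol
      have hcard : Fintype.card {u // ¬ (u = u0)} < N := by
        rw [← hN]
        exact Fintype.card_subtype_lt (x := u0) (by simp)
      obtain ⟨Y, ρ, hY, c1⟩ := ih _ hcard {u // ¬ (u = u0)} (fun a b => A a.1 b.1)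
        (good_sub hA (fun u => u = u0) (fun w u hwu hu => absurd (hu ▸ hcol w) hwu) _
          (fun _ _ => rfl)) rfl
      exact ⟨Y, _, hY, CH.trans c c1⟩
    · set C : Matrix {u // p u} {u // p u} ℕ := fun u v => A u.1 v.1 with hC
      set m : Matrix {u // p u} {u // ¬ p u} ℕ := fun u v => A u.1 v.1 with hm
      set A1 : Matrix {u // ¬ p u} {u // ¬ p u} ℕ := fun u v => A u.1 v.1 with hA1
      set e : α ≃ {u // p u} ⊕ {u // ¬ p u} := (Equiv.sumCompl p).symm with he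
      have he1 : ∀ u, e.symm (Sum.inl u) = u.1 := fun u => rfl
      have he2 : ∀ u, e.symm (Sum.inr u) = u.1 := fun u => rfl
      have bA : A.submatrix e.symm e.symm = fromBlocks C m 0 A1 := by
        ext i j
        rcases i with i | i <;> rcases j with j | j
        · rfl
        · rfl
        · simp only [Matrix.submatrix_apply, he1, he2, Matrix.fromBlocks_apply₂₁,
            Matrix.zero_apply]
          by_contra hne
          exact i.2 (hpred i.1 j.1 hne j.2)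
        · rfl
      have hcard : Fintype.card {u // ¬ p u} < N := by
        rw [← hN]
        exact Fintype.card_subtype_lt (x := u0) (by
          rw [hp]; simpa using Mut.refl A u0)
      obtain ⟨Y1, ρ1, s1, c1⟩ := ih _ hcard _ A1
        (good_sub hA p hpred A1 (fun _ _ => rfl)) rfl
      obtain ⟨Y0, ρ0, s0, c0⟩ := hs0
      have d1 := CH.iso e A
      rw [bA] at d1
      have d2 := c1.lift C m
      have c00 : CH ⟨{u // p u}, C⟩ (compO A u0) _ :=
        @CH.iso {u // p u} {j // Mut A u0 j} _ _ (compO A u0).fin (compO A u0).dec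
          (Equiv.subtypeEquivRight (fun u => by rw [hp])) C
      obtain ⟨Z', ρ', d3⟩ := (c00.trans c0).replace Y1.M (m * ρ1)
      exact ⟨⟨Y0.ι ⊕ Y1.ι, fromBlocks Y0.M Z' 0 Y1.M⟩, _, gd_blocks hP s0 s1 Z',
        (d1.trans d2).trans d3⟩

theorem core2 : ∀ (N : ℕ) (α β : Type) [Fintype α] [DecidableEq α] [Fintype β]
    [DecidableEq β] (A : Matrix α α ℕ) (B : Matrix β β ℕ) (_ : Gd PB A) (_ : Gd PB B)
    (R : Matrix α β ℕ) (S : Matrix β α ℕ) (l : ℕ) (_ : 1 ≤ l)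
    (_ : A * R = R * B) (_ : S * A = B * S) (_ : R * S = A ^ l) (_ : S * R = B ^ l)
    (_ : Hl A B R S),
    Fintype.card α = N → ∃ t, CH ⟨α, A⟩ ⟨β, B⟩ (A ^ t * R) := by
  intro N
  induction N using Nat.strong_induction_on with
  | _ N ih =>
  intro α β _ _ _ _ A B hA hB R S l hl hAR hSA hRS hSR hH hN
  have hP := fam_pb
  classical
  have pA : ∀ i, Rec A i := gw_of_gd hP hA
  have pB : ∀ i, Rec B i := gw_of_gd hP hB
  rcases isEmpty_or_nonempty α with hα | hα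
  · have hβ : IsEmpty β := by
      constructor
      intro b
      obtain ⟨M, hM, _, h1⟩ := (pB b).large l
      obtain ⟨k0, rfl⟩ : ∃ k0, M = l + k0 := ⟨M - l, by omega⟩
      rw [pow_add, ← hSR, Matrix.mul_assoc] at h1
      obtain ⟨a, _, _⟩ := mex h1
      exact hα.elim a
    refine ⟨0, CH.single (X := ⟨α, A⟩) (Y := ⟨β, B⟩) _ S ?_ ?_⟩
    · ext i; exact hα.elim i
    · ext i; exact hβ.elim i
  · obtain ⟨u0, _, hu0⟩ := Finset.exists_min_image (Finset.univ : Finset α)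
      (fun i => (Finset.univ.filter (fun w => Rch A w i)).card)
      (by obtain ⟨a⟩ := hα; exact ⟨a, Finset.mem_univ _⟩)
    set p : α → Prop := fun u => Mut A u0 u with hp
    have hpred : ∀ w u, A w u ≠ 0 → p u → p w := by
      intro w u hwu hu
      have h1 : (Finset.univ.filter (fun x => Rch A x w)) ⊆
          (Finset.univ.filter (fun x => Rch A x u)) := by
        intro x
        simp only [Finset.mem_filter, Finset.mem_univ, true_and]
        exact fun h => h.trans (Rch.edge hwu)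
      have h2 : (Finset.univ.filter (fun x => Rch A x u)) =
          (Finset.univ.filter (fun x => Rch A x u0)) := by
        ext x
        simp only [Finset.mem_filter, Finset.mem_univ, true_and]
        exact ⟨fun h => h.trans hu.2, fun h => h.trans hu.1⟩
      have h3 : (Finset.univ.filter (fun x => Rch A x u)).card ≤
          (Finset.univ.filter (fun x => Rch A x w)).card := by
        rw [h2]; exact hu0 w (Finset.mem_univ _)
      have h4 := Finset.eq_of_subset_of_card_le h1 h3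
      have h5 : u ∈ Finset.univ.filter (fun x => Rch A x w) := by
        rw [h4]; simp [Rch.refl]
      simp only [Finset.mem_filter, Finset.mem_univ, true_and] at h5
      exact Mut.trans hu ⟨h5, Rch.edge hwu⟩
    have hpredk : ∀ (k : ℕ) w u, (A ^ k) w u ≠ 0 → p u → p w := by
      intro k
      induction k with
      | zero => intro w u h hu; rwa [pow_zero_ne h]
      | succ k ihk =>
        intro w u h hu
        rw [pow_succ] at h
        obtain ⟨v, h1, h2⟩ := mex h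
        exact ihk w v h1 (hpred v u h2 hu)
    set D : β → Prop := fun b => ∃ c, p c ∧ S b c ≠ 0 with hD
    have hRD : ∀ u b, D b → R u b ≠ 0 → p u := by
      rintro u b ⟨c, hc, hSc⟩ hR
      refine hpredk l u c ?_ hc
      rw [← hRS]; exact mne hR hSc
    have hDpred : ∀ a b, B a b ≠ 0 → D b → D a := by
      rintro a b hab ⟨c, hc, hSc⟩
      have h1 : (B * S) a c ≠ 0 := mne hab hSc
      rw [← hSA] at h1
      obtain ⟨u, hu1, hu2⟩ := mex h1
      exact ⟨u, hpred u c hu2 hc, hu1⟩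
    have hDpredk : ∀ (k : ℕ) w u, (B ^ k) w u ≠ 0 → D u → D w := by
      intro k
      induction k with
      | zero => intro w u h hu; rwa [pow_zero_ne h]
      | succ k ihk =>
        intro w u h hu
        rw [pow_succ] at h
        obtain ⟨v, h1, h2⟩ := mex h
        exact ihk w v h1 (hDpred v u h2 hu)
    have hcol : ∀ b, D b → ∃ c, p c ∧ R c b ≠ 0 := by
      intro b hb
      obtain ⟨M, hM, _, h1⟩ := (pB b).large l
      obtain ⟨k0, rfl⟩ : ∃ k0, M = k0 + l := ⟨M - l, by omega⟩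
      rw [pow_add, ← hSR, ← Matrix.mul_assoc] at h1
      obtain ⟨c, _, h2⟩ := mex h1
      exact ⟨c, hRD c b hb h2, h2⟩
    obtain ⟨b0, hb0⟩ : ∃ b, D b := by
      obtain ⟨M, hM, _, h1⟩ := (pA u0).large l
      obtain ⟨k0, rfl⟩ : ∃ k0, M = k0 + l := ⟨M - l, by omega⟩
      rw [pow_add, ← hRS, ← Matrix.mul_assoc] at h1
      obtain ⟨b, _, h2⟩ := mex h1
      exact ⟨b, u0, Mut.refl A u0, h2⟩
    have hrch : ∀ b b', D b → D b' → Rch B b b' := by
      rintro b b' ⟨c, hc, hSc⟩ hb'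
      obtain ⟨c', hc', hR'⟩ := hcol b' hb'
      obtain ⟨k, hk⟩ := (Mut.trans (Mut.symm hc) hc').1
      refine ⟨k + l, ?_⟩
      have e1 : S * A ^ k * R = B ^ (k + l) := by
        rw [← semiconj_pow _ _ _ hSA.symm k, Matrix.mul_assoc, hSR, ← pow_add]
      rw [← e1]
      exact mne (mne hSc hk) hR'
    have hDm : ∀ b, Mut B b0 b ↔ D b := by
      intro b
      constructor
      · rintro ⟨_, ⟨k, hk⟩⟩
        exact hDpredk k b b0 hk hb0
      · intro h
        exact ⟨hrch b0 b hb0 h, hrch b b0 h hb0⟩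
    -- the blocks
    set e : α ≃ {u // p u} ⊕ {u // ¬ p u} := (Equiv.sumCompl p).symm with he
    set f : β ≃ {b // D b} ⊕ {b // ¬ D b} := (Equiv.sumCompl D).symm with hf
    have he1 : ∀ u, e.symm (Sum.inl u) = u.1 := fun u => rfl
    have he2 : ∀ u, e.symm (Sum.inr u) = u.1 := fun u => rfl
    have hf1 : ∀ u, f.symm (Sum.inl u) = u.1 := fun u => rfl
    have hf2 : ∀ u, f.symm (Sum.inr u) = u.1 := fun u => rfl
    set Θ : Matrix {u // p u} {u // p u} ℕ := fun u v => A u.1 v.1 with hΘ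
    set m : Matrix {u // p u} {u // ¬ p u} ℕ := fun u v => A u.1 v.1 with hm
    set A1 : Matrix {u // ¬ p u} {u // ¬ p u} ℕ := fun u v => A u.1 v.1 with hA1
    set Θ' : Matrix {b // D b} {b // D b} ℕ := fun u v => B u.1 v.1 with hΘ'
    set m' : Matrix {b // D b} {b // ¬ D b} ℕ := fun u v => B u.1 v.1 with hm'
    set B1 : Matrix {b // ¬ D b} {b // ¬ D b} ℕ := fun u v => B u.1 v.1 with hB1
    set r0 : Matrix {u // p u} {b // D b} ℕ := fun u v => R u.1 v.1 with hr0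
    set r12 : Matrix {u // p u} {b // ¬ D b} ℕ := fun u v => R u.1 v.1 with hr12
    set R2 : Matrix {u // ¬ p u} {b // ¬ D b} ℕ := fun u v => R u.1 v.1 with hR2
    set s0 : Matrix {b // D b} {u // p u} ℕ := fun u v => S u.1 v.1 with hs0
    set s12 : Matrix {b // D b} {u // ¬ p u} ℕ := fun u v => S u.1 v.1 with hs12
    set S2 : Matrix {b // ¬ D b} {u // ¬ p u} ℕ := fun u v => S u.1 v.1 with hS2
    have bA : A.submatrix e.symm e.symm = fromBlocks Θ m 0 A1 := by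
      ext i j
      rcases i with i | i <;> rcases j with j | j
      · rfl
      · rfl
      · simp only [Matrix.submatrix_apply, he1, he2, Matrix.fromBlocks_apply₂₁, Matrix.zero_apply]
        by_contra hne
        exact i.2 (hpred i.1 j.1 hne j.2)
      · rfl
    have bB : B.submatrix f.symm f.symm = fromBlocks Θ' m' 0 B1 := by
      ext i j
      rcases i with i | i <;> rcases j with j | j
      · rfl
      · rfl
      · simp only [Matrix.submatrix_apply, hf1, hf2, Matrix.fromBlocks_apply₂₁, Matrix.zero_apply]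
        by_contra hne
        exact i.2 (hDpred i.1 j.1 hne j.2)
      · rfl
    have bR : R.submatrix e.symm f.symm = fromBlocks r0 r12 0 R2 := by
      ext i j
      rcases i with i | i <;> rcases j with j | j
      · rfl
      · rfl
      · simp only [Matrix.submatrix_apply, he2, hf1, Matrix.fromBlocks_apply₂₁, Matrix.zero_apply]
        by_contra hne
        exact i.2 (hRD i.1 j.1 j.2 hne)
      · rfl
    have bS : S.submatrix f.symm e.symm = fromBlocks s0 s12 0 S2 := by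
      ext i j
      rcases i with i | i <;> rcases j with j | j
      · rfl
      · rfl
      · simp only [Matrix.submatrix_apply, he1, hf2, Matrix.fromBlocks_apply₂₁, Matrix.zero_apply]
        by_contra hne
        exact i.2 ⟨j.1, j.2, hne⟩
      · rfl
    -- block relations
    have kAR : fromBlocks Θ m 0 A1 * fromBlocks r0 r12 0 R2 =
        fromBlocks r0 r12 0 R2 * fromBlocks Θ' m' 0 B1 := by
      rw [← bA, ← bR, ← bB, Matrix.submatrix_mul_equiv, Matrix.submatrix_mul_equiv, hAR]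
    have kSA : fromBlocks s0 s12 0 S2 * fromBlocks Θ m 0 A1 =
        fromBlocks Θ' m' 0 B1 * fromBlocks s0 s12 0 S2 := by
      rw [← bA, ← bS, ← bB, Matrix.submatrix_mul_equiv, Matrix.submatrix_mul_equiv, hSA]
    have kRS : fromBlocks r0 r12 0 R2 * fromBlocks s0 s12 0 S2 =
        (fromBlocks Θ m 0 A1) ^ l := by
      rw [← bA, ← bR, ← bS, Matrix.submatrix_mul_equiv, ← submatrix_pow, hRS]
    have kSR : fromBlocks s0 s12 0 S2 * fromBlocks r0 r12 0 R2 =
        (fromBlocks Θ' m' 0 B1) ^ l := by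
      rw [← bB, ← bR, ← bS, Matrix.submatrix_mul_equiv, ← submatrix_pow, hSR]
    have k1 := kAR
    have k2 := kSA
    have k3 := kRS
    have k4 := kSR
    rw [up, up] at k1 k2
    rw [up, block_pow] at k3 k4
    obtain ⟨e1, -, e2⟩ := blk k1
    obtain ⟨e3, -, e4⟩ := blk k2
    obtain ⟨e5, -, e6⟩ := blk k3
    obtain ⟨e7, -, e8⟩ := blk k4
    -- components
    have PΘ : PB ⟨{u // p u}, Θ⟩ := hP.iso (compO A u0) {u // p u} (Equiv.refl _) (hA u0)
    have PΘ' : PB ⟨{b // D b}, Θ'⟩ :=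
      hP.iso (compO B b0) {b // D b} (Equiv.subtypeEquivRight hDm) (hB b0)
    have gA1 : Gd PB A1 := gd_sub hP hA p hpred
    have gB1 : Gd PB B1 := gd_sub hP hB D hDpred
    have rec0 : Rec A u0 := pA u0
    have hmt0 : Mt A R S u0 b0 := by
      obtain ⟨c, hc, hSc⟩ := hb0
      obtain ⟨c', hc', hR'⟩ := hcol b0 ⟨c, hc, hSc⟩
      obtain ⟨k, hk⟩ := hc'.1
      obtain ⟨k', hk'⟩ := hc.2
      exact ⟨⟨k, mne hk hR'⟩, k', mne hSc hk'⟩
    obtain ⟨t1, c1'⟩ := hH u0 b0 rec0 hmt0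
    have c1 : CH ⟨{u // p u}, Θ⟩ ⟨{b // D b}, Θ'⟩ (Θ ^ t1 * r0) :=
      tr_ch (X := ⟨{u // p u}, Θ⟩) (Y := ⟨{b // D b}, Θ'⟩) (X' := compO A u0) (Y' := compO B b0)
        (Equiv.refl _) (Equiv.subtypeEquivRight hDm).symm (fun _ _ => rfl) (fun _ _ => rfl)
        r0 (bl A B R u0 b0) (fun _ _ => rfl) t1 c1'
    have hH1 : Hl A1 B1 R2 S2 := by
      intro i j hi hm
      have fA : ∀ (k : ℕ) (a b : {u // ¬ p u}), (A1 ^ k) a b ≠ 0 → (A ^ k) a.1 b.1 ≠ 0 :=
        fun k a b h => sub_pow_ne A _ A1 (fun _ _ => rfl) k a b h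
      have ri : Rec A i.1 := by
        obtain ⟨q, hq, h⟩ := hi
        exact ⟨q, hq, fA q i i h⟩
      have hm' : Mt A R S i.1 j.1 := by
        obtain ⟨⟨k, hk⟩, k', hk'⟩ := hm
        obtain ⟨x, h1, h2⟩ := mex hk
        obtain ⟨y, h3, h4⟩ := mex hk'
        exact ⟨⟨k, mne (b := x.1) (fA k i x h1) h2⟩, k', mne (b := y.1) h3 (fA k' y i h4)⟩
      obtain ⟨t, c⟩ := hH i.1 j.1 ri hm'
      refine ⟨t, ?_⟩
      exact tr_ch (X := compO A1 i) (Y := compO B1 j) (X' := compO A i.1) (Y' := compO B j.1)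
        (subEquiv A p hpred A1 (fun _ _ => rfl) i) (subEquiv B D hDpred B1 (fun _ _ => rfl) j)
        (fun _ _ => rfl) (fun _ _ => rfl) (bl A1 B1 R2 i j) (bl A B R i.1 j.1)
        (fun _ _ => rfl) t c
    have hcard : Fintype.card {u // ¬ p u} < N := by
      rw [← hN]
      exact Fintype.card_subtype_lt (x := u0) (by simpa using Mut.refl A u0)
    obtain ⟨t2, c2⟩ := ih _ hcard _ _ A1 B1 gA1 gB1 R2 S2 l hl e2 e4 e6 e8 hH1 rfl
    obtain ⟨T, c⟩ := glue Θ m A1 Θ' m' B1 r0 r12 R2 s0 s12 S2 l kAR kSA kRS kSR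
      (hP.bo _ PΘ) (hP.bo _ PΘ') (gw_of_gd hP gB1) t1 t2 c1 c2
    refine ⟨T, ?_⟩
    refine CH.reindex e f A B _ ?_
    rw [← Matrix.submatrix_mul_equiv (A ^ T) R e.symm e.symm f.symm, submatrix_pow, bA, bB, bR]
    exact c


/-- **Local-global principle**: a shift equivalence between matrices with mixing components is
realised up to a power if all its diagonal blocks are -/
theorem loc_glob {α β : Type} [Fintype α] [DecidableEq α] [Fintype β] [DecidableEq β]
    (A : Matrix α α ℕ) (B : Matrix β β ℕ) (hA : ∀ i, Rec A i → PB (compO A i))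
    (hB : ∀ i, Rec B i → PB (compO B i)) (R : Matrix α β ℕ) (S : Matrix β α ℕ) (l : ℕ)
    (h : SD A B R S l) (hH : Hl A B R S) : ∃ t, CH ⟨α, A⟩ ⟨β, B⟩ (A ^ t * R) := by
  have gA : ∀ i, Wand A i ∨ Sg SC.PB (compO A i) := by
    intro i
    by_cases hi : Rec A i
    · exact Or.inr ⟨compO A i, 1, hA i hi, CH.refl _⟩
    · left
      intro k hk
      by_contra hne
      exact hi ⟨k, hk, hne⟩
  have gB : ∀ i, Wand B i ∨ Sg SC.PB (compO B i) := by
    intro i
    by_cases hi : Rec B i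
    · exact Or.inr ⟨compO B i, 1, hB i hi, CH.refl _⟩
    · left
      intro k hk
      by_contra hne
      exact hi ⟨k, hk, hne⟩
  obtain ⟨X', ρ, sA, cA⟩ := reduce3 fam_pb _ α A gA rfl
  obtain ⟨Y', ρ', sB, cB⟩ := reduce3 fam_pb _ β B gB rfl
  obtain ⟨ρs, a, hρ, cA'⟩ := sd_of_ch cA
  obtain ⟨ρs', b, hρ', cB'⟩ := sd_of_ch cB
  have hall : SD X'.M Y'.M (ρs * (R * ρ')) (ρs' * S * ρ) (a + (l + b)) :=
    hρ.symm.trans (h.trans hρ')
  have hall' : SD X'.M Y'.M (X'.M ^ 1 * (ρs * (R * ρ'))) (ρs' * S * ρ) (1 + (a + (l + b))) :=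
    hall.pow 1
  have hH' : Hl X'.M Y'.M (X'.M ^ 1 * (ρs * (R * ρ'))) (ρs' * S * ρ) := by
    intro i' j' hi' hm'
    -- the matched components of `A` and `B`
    obtain ⟨i, mi, ri⟩ := Mt.exists hρ.symm hi'
    obtain ⟨j, mj, rj⟩ := Mt.exists h ri
    obtain ⟨j'', mj'', rj''⟩ := Mt.exists hρ' rj
    have m1 := Mt.trans hρ.symm (h.trans hρ') mi (Mt.trans h hρ' mj mj'')
    have m2 : Mt X'.M (X'.M ^ 1 * (ρs * (R * ρ'))) (ρs' * S * ρ) i' j'' := Mt.powR 1 hi' m1
    have m3 : Mut Y'.M j'' j' := Mt.unique hall' m2 hm'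
    have m4 : Mt B ρ' ρs' j j' := Mt.move hρ' mj'' (Mut.refl _ _) m3
    have m5 : Mt A (R * ρ') (ρs' * S) i j' := Mt.trans h hρ' mj m4
    have m6 : Mt X'.M (ρs * (R * ρ')) (ρs' * S * ρ) i' j' :=
      Mt.trans hρ.symm (h.trans hρ') mi m5
    have d1 := restrict cA' ρ a hρ.symm i' i hi' mi
    obtain ⟨t, d2⟩ := hH i j ri mj
    have d3 := restrict cB ρs' b hρ' j j' rj m4
    refine ⟨t, ?_⟩
    have e1 : bl X'.M Y'.M (X'.M ^ 1 * (ρs * (R * ρ'))) i' j' =
        (compO X'.M i').M ^ 1 * (bl X'.M A ρs i' i * (bl A B R i j * bl B Y'.M ρ' j j')) := by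
      rw [bl_powmul hall hi' m6 1]
      congr 1
      exact (bl_mul hρ.symm (h.trans hρ') mi m5).trans (congrArg _ (bl_mul h hρ' mj m4))
    have e2 : bl X'.M A ρs i' i * (compO A i).M ^ t = (compO X'.M i').M ^ t * bl X'.M A ρs i' i :=
      semi _ _ _ (bl_semi hρ.symm hi' ri mi) t
    have d4 := (powCH (compO X'.M i') 1).trans ((d1.trans d2).trans d3)
    convert d4 using 1
    rw [e1]
    calc (compO X'.M i').M ^ t * ((compO X'.M i').M ^ 1 *
          (bl X'.M A ρs i' i * (bl A B R i j * bl B Y'.M ρ' j j')))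
        = (compO X'.M i').M ^ 1 * (((compO X'.M i').M ^ t * bl X'.M A ρs i' i) *
          (bl A B R i j * bl B Y'.M ρ' j j')) := by
          simp only [← Matrix.mul_assoc]
          rw [← pow_add, ← pow_add, add_comm]
      _ = _ := by
          rw [← e2]; simp only [Matrix.mul_assoc]
  obtain ⟨L, hCH⟩ := core2 _ X'.ι Y'.ι X'.M Y'.M sA sB _ _ (1 + (a + (l + b))) (by omega)
    hall'.ar hall'.sa hall'.rs hall'.sr hH' rfl
  refine ⟨L + 1 + a + b, ?_⟩
  have c := (CH.trans cA (hCH : CH X' Y' (X'.M ^ L * (X'.M ^ 1 * (ρs * (R * ρ')))))).trans cB'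
  convert c using 1
  change A ^ (L + 1 + a + b) * R = ρ * (X'.M ^ L * (X'.M ^ 1 * (ρs * (R * ρ')))) * ρs'
  symm
  calc ρ * (X'.M ^ L * (X'.M ^ 1 * (ρs * (R * ρ')))) * ρs'
      = (ρ * X'.M ^ (L + 1)) * ρs * (R * (ρ' * ρs')) := by
        rw [← Matrix.mul_assoc (X'.M ^ L), ← pow_add]; simp only [Matrix.mul_assoc]
    _ = A ^ (L + 1) * (ρ * ρs) * (R * B ^ b) := by
        rw [← hρ.arp (L + 1), hρ'.rs]; simp only [Matrix.mul_assoc]
    _ = A ^ (L + 1 + a) * (A ^ b * R) := by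
        rw [hρ.rs, ← pow_add]
        congr 1
        exact (h.arp b).symm
    _ = A ^ (L + 1 + a + b) * R := by
        rw [← Matrix.mul_assoc, ← pow_add]


end Run7.h850.SC
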