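import Pool.Agent.Run7.h850.SG.Core

/-!
# Components which are cycles
-/

set_option autoImplicit false
set_option linter.unusedSectionVars false
set_option linter.unusedVariables false

namespace Run7.h850.SC

open Matrix Pool.Agent.H812R2.SSE
open Run7.h850.SS hiding Bo Gw Fam PB fam_pb core2 loc_glob glue block_step gd_sub gd_blocks fam_iso' reduce3 gw_of_gd
open Run7.h850.SG (Two cl pdl mod_add_mul)

variable {β : Type} [Fintype β] [DecidableEq β] {B : Matrix β β ℕ}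

theorem two_mut {b b' : β} (h : Two B b) (h1 : Rch B b b') (h2 : Rch B b' b) : Two B b' := by
  obtain ⟨N, hN, h⟩ := h
  obtain ⟨k, hk⟩ := h1
  obtain ⟨l, hl⟩ := h2
  refine ⟨l + N + k, by omega, ?_⟩
  rw [pow_add, pow_add]
  have h3 := mul_entry_le (B ^ l * B ^ N) (B ^ k) b' b b'
  have h4 := mul_entry_le (B ^ l) (B ^ N) b' b b
  have h5 : 1 * 2 ≤ (B ^ l) b' b * (B ^ N) b b :=
    Nat.mul_le_mul (Nat.one_le_iff_ne_zero.2 hl) h
  have h6 : 2 * 1 ≤ (B ^ l * B ^ N) b' b * (B ^ k) b b' :=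
    Nat.mul_le_mul (by omega) (Nat.one_le_iff_ne_zero.2 hk)
  omega

theorem sum_two_le {δ ε : Type} (X : Matrix δ β ℕ) (Y : Matrix β ε ℕ) (i : δ) (j : ε) (x y : β)
    (hxy : x ≠ y) : X i x * Y x j + X i y * Y y j ≤ (X * Y) i j := by
  rw [Matrix.mul_apply, ← Finset.sum_pair (f := fun a => X i a * Y a j) hxy]
  exact Finset.sum_le_sum_of_subset (Finset.subset_univ _)

/-- two different successors in the component -/
theorem two_of_succ {b x y : β} (hxy : x ≠ y) (hx : B b x ≠ 0) (hy : B b y ≠ 0)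
    (rx : Rch B x b) (ry : Rch B y b) : Two B b := by
  obtain ⟨k, hk⟩ := rx
  obtain ⟨l, hl⟩ := ry
  refine ⟨1 + (k + (1 + l)), by omega, ?_⟩
  rw [pow_add, pow_one]
  have h1 : (B ^ (k + (1 + l))) x b ≠ 0 := by
    rw [pow_add, pow_add, pow_one]; exact mne hk (mne hy hl)
  have h2 : (B ^ (k + (1 + l))) y b ≠ 0 := by
    rw [show k + (1 + l) = l + (1 + k) by ring, pow_add, pow_add, pow_one]
    exact mne hl (mne hx hk)
  have h3 := sum_two_le B (B ^ (k + (1 + l))) b b x y hxy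
  have h4 := Nat.mul_pos (Nat.pos_of_ne_zero hx) (Nat.pos_of_ne_zero h1)
  have h5 := Nat.mul_pos (Nat.pos_of_ne_zero hy) (Nat.pos_of_ne_zero h2)
  omega

theorem two_of_pred {b x y : β} (hxy : x ≠ y) (hx : B x b ≠ 0) (hy : B y b ≠ 0)
    (rx : Rch B b x) (ry : Rch B b y) : Two B b := by
  obtain ⟨k, hk⟩ := rx
  obtain ⟨l, hl⟩ := ry
  refine ⟨(l + 1) + k + 1, by omega, ?_⟩
  rw [pow_succ]
  have h1 : (B ^ ((l + 1) + k)) b x ≠ 0 := by
    rw [pow_add, pow_succ]; exact mne (mne hl hy) hk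
  have h2 : (B ^ ((l + 1) + k)) b y ≠ 0 := by
    rw [show (l + 1) + k = (k + 1) + l by ring, pow_add, pow_succ]
    exact mne (mne hk hx) hl
  have h3 := sum_two_le (B ^ ((l + 1) + k)) B b b x y hxy
  have h4 := Nat.mul_pos (Nat.pos_of_ne_zero h1) (Nat.pos_of_ne_zero hx)
  have h5 := Nat.mul_pos (Nat.pos_of_ne_zero h2) (Nat.pos_of_ne_zero hy)
  omega

theorem two_of_edge {b x : β} (hx : 2 ≤ B b x) (rx : Rch B x b) : Two B b := by
  obtain ⟨k, hk⟩ := rx
  refine ⟨1 + k, by omega, ?_⟩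
  rw [pow_add, pow_one]
  have h3 := mul_entry_le B (B ^ k) b x b
  have h4 : 2 * 1 ≤ B b x * (B ^ k) x b := Nat.mul_le_mul hx (Nat.one_le_iff_ne_zero.2 hk)
  omega

theorem exists_succ {b : β} (h : Rec B b) : ∃ x, B b x ≠ 0 ∧ Rch B x b := by
  obtain ⟨p, hp, h⟩ := h
  obtain ⟨q, rfl⟩ : ∃ q, p = 1 + q := ⟨p - 1, by omega⟩
  rw [pow_add, pow_one] at h
  obtain ⟨x, h1, h2⟩ := mex h
  exact ⟨x, h1, q, h2⟩

/-- the successor permutation on the cycles -/
theorem exists_tau (hB : ∀ b, Rec B b) : ∃ τ : Equiv.Perm β, ∀ b, ¬ Two B b →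
    B b (τ b) = 1 ∧ Rch B (τ b) b ∧ ¬ Two B (τ b) := by
  classical
  choose f hf1 hf2 using fun b => exists_succ (hB b)
  obtain ⟨g, hg⟩ : ∃ g : β → β, g = fun b => if Two B b then b else f b := ⟨_, rfl⟩
  have hnt : ∀ b, ¬ Two B b → ¬ Two B (f b) := by
    intro b hb h
    exact hb (two_mut h (hf2 b) ⟨1, by rw [pow_one]; exact hf1 b⟩)
  have hinj : Function.Injective g := by
    intro a b hab
    rw [hg] at hab
    simp only at hab
    by_cases ha : Two B a <;> by_cases hb : Two B b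
    · rwa [if_pos ha, if_pos hb] at hab
    · rw [if_pos ha, if_neg hb] at hab
      exact absurd (hab ▸ ha) (hnt b hb)
    · rw [if_neg ha, if_pos hb] at hab
      exact absurd (hab ▸ hb) (hnt a ha)
    · rw [if_neg ha, if_neg hb] at hab
      by_contra hne
      apply hnt a ha
      exact two_of_pred hne (hf1 a) (hab ▸ hf1 b) (hf2 a) (hab ▸ hf2 b)
  refine ⟨Equiv.ofBijective g (Finite.injective_iff_bijective.1 hinj), fun b hb => ?_⟩
  have e : (Equiv.ofBijective g (Finite.injective_iff_bijective.1 hinj)) b = f b := by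
    change g b = f b
    rw [hg]
    exact if_neg hb
  rw [e]
  refine ⟨?_, hf2 b, hnt b hb⟩
  by_contra hne
  have h1 := hf1 b
  exact hb (two_of_edge (by omega) (hf2 b))

/-- the data of a successor permutation -/
def Tau (B : Matrix β β ℕ) (τ : Equiv.Perm β) : Prop :=
  ∀ b, ¬ Two B b → B b (τ b) = 1 ∧ Rch B (τ b) b ∧ ¬ Two B (τ b)

section

variable {τ : Equiv.Perm β}

theorem Tau.nt (h : Tau B τ) {b : β} (hb : ¬ Two B b) (k : ℕ) : ¬ Two B ((τ ^ k) b) := by
  induction k with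
  | zero => simpa using hb
  | succ k ih =>
    rw [pow_succ', Equiv.Perm.mul_apply]
    exact (h _ ih).2.2

theorem Tau.path (h : Tau B τ) {b : β} (hb : ¬ Two B b) (k : ℕ) : (B ^ k) b ((τ ^ k) b) ≠ 0 := by
  induction k with
  | zero =>
    rw [pow_zero, pow_zero, Equiv.Perm.one_apply, Matrix.one_apply_eq]
    exact one_ne_zero
  | succ k ih =>
    rw [pow_succ, pow_succ', Equiv.Perm.mul_apply]
    refine mne ih ?_
    rw [(h _ (h.nt hb k)).1]
    exact one_ne_zero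

theorem Tau.follow (h : Tau B τ) (k : ℕ) : ∀ {b b' : β}, ¬ Two B b → (B ^ k) b b' ≠ 0 →
    Rch B b' b → b' = (τ ^ k) b := by
  induction k with
  | zero =>
    intro b b' _ h1 _
    rw [pow_zero]
    exact (pow_zero_ne h1).symm
  | succ k ih =>
    intro b b' hb h1 h2
    rw [pow_succ'] at h1
    obtain ⟨x, h3, h4⟩ := mex h1
    have rx : Rch B x b := Rch.trans ⟨k, h4⟩ h2
    have hx : x = τ b := by
      by_contra hne
      have h5 := h b hb
      exact hb (two_of_succ hne h3 (by rw [h5.1]; exact one_ne_zero) rx h5.2.1)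
    rw [hx] at h4
    have h6 := ih (h b hb).2.2 h4 (h2.trans ⟨1, by
      rw [pow_one, (h b hb).1]; exact one_ne_zero⟩)
    rw [h6, pow_succ, Equiv.Perm.mul_apply]

theorem Tau.per (h : Tau B τ) {b : β} (hb : ¬ Two B b) {D : ℕ} (hD : (B ^ D) b b ≠ 0) :
    (τ ^ D) b = b := (h.follow D hb hD (Rch.refl B b)).symm

theorem Tau.perx (h : Tau B τ) {b : β} (hb : ¬ Two B b) {D : ℕ} (hD : (B ^ D) b b ≠ 0) (x : ℕ) :
    (τ ^ (D * x)) b = b := h.per hb (cl hD x)

theorem Tau.cong (h : Tau B τ) {b : β} (hb : ¬ Two B b) {D : ℕ} (hD : (B ^ D) b b ≠ 0)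
    {u v : ℕ} (huv : u ≡ v [MOD D]) : (τ ^ u) b = (τ ^ v) b := by
  have key : ∀ u v : ℕ, u ≤ v → u ≡ v [MOD D] → (τ ^ u) b = (τ ^ v) b := by
    intro u v huv' h1
    obtain ⟨x, hx⟩ := (Nat.modEq_iff_dvd' huv').1 h1
    have e : v = u + D * x := by omega
    rw [e, pow_add, Equiv.Perm.mul_apply, h.perx hb hD]
  rcases Nat.le_total u v with h1 | h1
  · exact key u v h1 huv
  · exact (key v u h1 huv.symm).symm

end

end Run7.h850.SC
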