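import Pool.Agent.Run7.h850.SC.Path3

/-!
# Growth, with cycles
-/

set_option autoImplicit false
set_option linter.unusedSectionVars false
set_option linter.unusedVariables false

namespace Run7.h850.SC

open Matrix Pool.Agent.H812R2.SSE
open Run7.h850.SS hiding Bo Gw Fam PB fam_pb core2 loc_glob glue block_step gd_sub gd_blocks fam_iso' reduce3 gw_of_gd
open Run7.h850.SG (Two cl cl2 pdl mod_add_mul Pth Dd Up exD1 shift1)

/-- growth at every state, or a permutation matrix -/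
def Bo {γ : Type} [Fintype γ] [DecidableEq γ] (Θ : Matrix γ γ ℕ) : Prop :=
  (∀ c, Two Θ c) ∨ ∃ σ : Equiv.Perm γ, ∀ i c, Θ i c = if c = σ i then 1 else 0

variable {γ β δ : Type} [Fintype γ] [DecidableEq γ] [Fintype β] [DecidableEq β]

section

variable {Θ : Matrix γ γ ℕ} {σ : Equiv.Perm γ}

theorem perm_mul (hσ : ∀ i c, Θ i c = if c = σ i then 1 else 0) (X : Matrix γ δ ℕ)
    (i : γ) (b : δ) : (Θ * X) i b = X (σ i) b := by
  rw [Matrix.mul_apply, Finset.sum_eq_single (σ i)]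
  · rw [hσ, if_pos rfl, one_mul]
  · intro c _ hc
    rw [hσ, if_neg hc, zero_mul]
  · intro h; exact absurd (Finset.mem_univ _) h

theorem perm_pow_mul (hσ : ∀ i c, Θ i c = if c = σ i then 1 else 0) (k : ℕ) :
    ∀ (X : Matrix γ δ ℕ) (i : γ) (b : δ), (Θ ^ k * X) i b = X ((σ ^ k) i) b := by
  induction k with
  | zero => intro X i b; rw [pow_zero, Matrix.one_mul]; rfl
  | succ k ih =>
    intro X i b
    rw [pow_succ', Matrix.mul_assoc, perm_mul hσ, ih, pow_succ, Equiv.Perm.mul_apply]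

theorem perm_pow_apply (hσ : ∀ i c, Θ i c = if c = σ i then 1 else 0) (k : ℕ) (i c : γ) :
    (Θ ^ k) i c = if (σ ^ k) i = c then 1 else 0 := by
  have h := perm_pow_mul hσ k (1 : Matrix γ γ ℕ) i c
  rw [Matrix.mul_one] at h
  rw [h, Matrix.one_apply]

theorem perm_pow_ne (hσ : ∀ i c, Θ i c = if c = σ i then 1 else 0) (k : ℕ) (i : γ) :
    (Θ ^ k) i ((σ ^ k) i) ≠ 0 := by
  rw [perm_pow_apply hσ, if_pos rfl]; exact one_ne_zero

theorem perm_D (hσ : ∀ i c, Θ i c = if c = σ i then 1 else 0) {D : ℕ}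
    (hD : ∀ c, (Θ ^ D) c c ≠ 0) : σ ^ D = 1 := by
  ext i
  have h := hD i
  rw [perm_pow_apply hσ] at h
  by_contra hne
  exact h (if_neg hne)

theorem perm_cong {D : ℕ} (hD : σ ^ D = 1) {u v : ℕ} (h : u ≡ v [MOD D]) : σ ^ u = σ ^ v := by
  have e : ∀ u : ℕ, σ ^ u = σ ^ (u % D) := by
    intro u
    conv_lhs => rw [← Nat.div_add_mod u D, pow_add, pow_mul, hD, one_pow, one_mul]
  rw [e u, e v, h]

end

theorem Bo.rec {Θ : Matrix γ γ ℕ} (h : Bo Θ) (c : γ) : Rec Θ c := by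
  rcases h with h | ⟨σ, hσ⟩
  · exact (h c).rec
  · refine ⟨orderOf σ, orderOf_pos σ, ?_⟩
    have := perm_pow_ne hσ (orderOf σ) c
    rw [pow_orderOf_eq_one] at this
    exact this

theorem exD3 {Θ : Matrix γ γ ℕ} {B : Matrix β β ℕ} (hΘ : ∀ c, Rec Θ c) (hB : ∀ b, Rec B b) :
    ∃ D, Dd Θ B D := by
  obtain ⟨D1, h1, h2⟩ := exD1 Θ
  obtain ⟨D2, h3, h4⟩ := exD1 B
  refine ⟨D1 * D2, Nat.mul_pos h1 h3, fun c => ?_, fun b => ?_, fun c hc => ?_, fun b hb => ?_⟩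
  · have := pdl Θ c D1 D2
    have := pow_pos (n := D2) (Nat.pos_of_ne_zero ((h2 c).1 (hΘ c)))
    omega
  · have := pdl B b D2 D1
    have := pow_pos (n := D1) (Nat.pos_of_ne_zero ((h4 b).1 (hB b)))
    rw [mul_comm D1]
    omega
  · have := pdl Θ c D1 D2
    have h5 : 2 ^ D2 ≤ ((Θ ^ D1) c c) ^ D2 := Nat.pow_le_pow_left ((h2 c).2 hc) D2
    have h6 : 2 ^ 1 ≤ 2 ^ D2 := Nat.pow_le_pow_right (by norm_num) h3
    omega
  · have := pdl B b D2 D1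
    have h5 : 2 ^ D1 ≤ ((B ^ D2) b b) ^ D1 := Nat.pow_le_pow_left ((h4 b).2 hb) D1
    have h6 : 2 ^ 1 ≤ 2 ^ D1 := Nat.pow_le_pow_right (by norm_num) h1
    rw [mul_comm D1]
    omega

/-- linear growth on a cycle with an external entrance -/
theorem lin3 {B : Matrix β β ℕ} {τ : Equiv.Perm β} (hτ : Tau B τ) {D : ℕ} (hD1 : 1 ≤ D)
    (hD : ∀ b, (B ^ D) b b ≠ 0) {μ : Matrix γ β ℕ} {i : γ} {b1 b' : β} {k : ℕ}
    (hb1 : ¬ Two B b1) (hne : τ b' ≠ b1) (hb : B b' b1 ≠ 0)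
    (hk : (μ * B ^ k) i b' ≠ 0) (x : ℕ) : x + 1 ≤ (μ * B ^ (k + 1 + D * x)) i b1 := by
  have hper : ∀ x : ℕ, (μ * B ^ (k + D * x)) i b' ≠ 0 := by
    intro x
    rw [pow_add, ← Matrix.mul_assoc]
    exact mne hk (cl (hD b') x)
  obtain ⟨bz, hbz⟩ : ∃ bz, bz = (τ ^ (D - 1)) b1 := ⟨_, rfl⟩
  have h1 : τ bz = b1 := by
    rw [hbz, ← Equiv.Perm.mul_apply, ← pow_succ', show D - 1 + 1 = D by omega]
    exact hτ.per hb1 (hD b1)
  have h2 : ¬ Two B bz := by rw [hbz]; exact hτ.nt hb1 _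
  have h3 : B bz b1 = 1 := by
    have := (hτ bz h2).1
    rw [h1] at this
    exact this
  have h4 : bz ≠ b' := fun h => hne (by rw [← h, h1])
  induction x with
  | zero =>
    rw [mul_zero, add_zero, pow_succ, ← Matrix.mul_assoc]
    exact Nat.one_le_iff_ne_zero.2 (mne hk hb)
  | succ x ih =>
    have e : k + 1 + D * (x + 1) = (k + D * (x + 1)) + 1 := by ring
    rw [e, pow_succ, ← Matrix.mul_assoc]
    have h5 := sum_two_le (μ * B ^ (k + D * (x + 1))) B i b1 bz b' h4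
    rw [h3, mul_one] at h5
    have h6 : 1 * 1 ≤ (μ * B ^ (k + D * (x + 1))) i b' * B b' b1 :=
      Nat.mul_le_mul (Nat.one_le_iff_ne_zero.2 (hper _)) (Nat.one_le_iff_ne_zero.2 hb)
    have h7 : (μ * B ^ (k + 1 + D * x)) i b1 ≤ (μ * B ^ (k + D * (x + 1))) i bz := by
      have e2 : k + D * (x + 1) = (k + 1 + D * x) + (D - 1) := by
        rw [Nat.mul_succ]; omega
      rw [e2, pow_add _ _ (D - 1), ← Matrix.mul_assoc]
      have h8 := mul_entry_le (μ * B ^ (k + 1 + D * x)) (B ^ (D - 1)) i b1 bz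
      have h9 : (B ^ (D - 1)) b1 bz ≠ 0 := by rw [hbz]; exact hτ.path hb1 _
      have h10 : (μ * B ^ (k + 1 + D * x)) i b1 * 1 ≤
          (μ * B ^ (k + 1 + D * x)) i b1 * (B ^ (D - 1)) b1 bz :=
        Nat.mul_le_mul_left _ (Nat.one_le_iff_ne_zero.2 h9)
      omega
    omega

/-- static pairs -/
def St (B : Matrix β β ℕ) (σ : Equiv.Perm γ) (τ : Equiv.Perm β) (U V : γ → β → Prop) (i : γ)
    (b : β) : Prop :=
  ¬ Two B b ∧ U i b ∧ ∀ (k : ℕ) b', V ((σ ^ k) i) b' → B b' ((τ ^ k) b) ≠ 0 → τ b' = (τ ^ k) b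

/-- growth and static orbits -/
structure Gro (D κ : ℕ) (Θ : Matrix γ γ ℕ) (μ : Matrix γ β ℕ) (B : Matrix β β ℕ)
    (σ : Equiv.Perm γ) (τ : Equiv.Perm β) (S : γ → β → Prop) : Prop where
  sta : Sta Θ B σ τ (Up D (κ + (D - 1)) Θ μ B) S
  gr : ∀ K : ℕ, ∃ p0 : ℕ, ∀ p, p0 ≤ p → ∃ a0 : ℕ, ∀ a c : ℕ, a0 ≤ a → a0 ≤ c → D ∣ a →
      a + c + D * p ≡ κ [MOD D] → ∀ i b,
      (Up D κ Θ μ B i b →
        (∃ s i' b', s ≤ D * p ∧ (Θ ^ s) i i' ≠ 0 ∧ (B ^ (D * p - s)) b' b ≠ 0 ∧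
        K * (D * p + 1) ≤ (Θ ^ a * μ * B ^ c) i' b') ∨ S i b) ∧
      (S i b → ∃ k : ℕ, 1 ≤ (Θ ^ a * μ * B ^ c) ((σ ^ k) i) ((τ ^ k) b))

section

variable {Θ : Matrix γ γ ℕ} {B : Matrix β β ℕ} {D : ℕ}

theorem gr_two (hΘ : ∀ c, Two Θ c) (hD : Dd Θ B D) (μ : Matrix γ β ℕ) (κ K : ℕ) (i : γ) (b : β) :
    ∃ p0 : ℕ, ∀ p, p0 ≤ p → ∃ a0 : ℕ, ∀ a c : ℕ, a0 ≤ a → a0 ≤ c → D ∣ a →
      a + c + D * p ≡ κ [MOD D] → 
      (Up D κ Θ μ B i b →
        (∃ s i' b', s ≤ D * p ∧ (Θ ^ s) i i' ≠ 0 ∧ (B ^ (D * p - s)) b' b ≠ 0 ∧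
        K * (D * p + 1) ≤ (Θ ^ a * μ * B ^ c) i' b')) := by
  classical
  by_cases hu : Up D κ Θ μ B i b
  swap
  · exact ⟨0, fun p _ => ⟨0, fun a c _ _ _ _ h => absurd h hu⟩⟩
  obtain ⟨j, k, hjk, hne⟩ := hu
  obtain ⟨b0, h1, hk⟩ := mex hne
  obtain ⟨c0, hj, hm⟩ := mex h1
  refine ⟨j, fun p hp => ⟨D * (K * (D * p + 1)) + k, fun a c ha hc hda htot _ => ?_⟩⟩
  have hjp : j ≤ D * p := hp.trans (Nat.le_mul_of_pos_left p hD.pos)
  obtain ⟨x, rfl⟩ := hda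
  have hx : K * (D * p + 1) ≤ x := by
    have : D * (K * (D * p + 1)) ≤ D * x := by omega
    exact Nat.le_of_mul_le_mul_left this hD.pos
  have hmod : j + k ≡ c + D * p [MOD D] := by
    refine hjk.trans (htot.symm.trans ?_)
    rw [show D * x + c + D * p = c + D * p + D * x by ring]
    exact mod_add_mul D _ x
  have hle : j + k ≤ c + D * p := by omega
  obtain ⟨x', hx'⟩ := (Nat.modEq_iff_dvd' hle).1 hmod
  have e1 : c + (D * p - j) = k + D * x' := by omega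
  have h2 : (B ^ (c + (D * p - j))) b0 b ≠ 0 := by
    rw [e1, pow_add]; exact mne hk (cl (hD.b1 b) x')
  rw [pow_add] at h2
  obtain ⟨b', h3, h4⟩ := mex h2
  refine ⟨j, c0, b', hjp, hj, h4, ?_⟩
  have h5 := mul_entry_le (Θ ^ (D * x) * μ) (B ^ c) c0 b0 b'
  have h6 := mul_entry_le (Θ ^ (D * x)) μ c0 c0 b0
  have h7 := cl2 (hD.t2 c0 (hΘ c0)) x
  have h8 : x * 1 ≤ (Θ ^ (D * x)) c0 c0 * μ c0 b0 :=
    Nat.mul_le_mul h7 (Nat.one_le_iff_ne_zero.2 hm)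
  have h9 : x * 1 ≤ (Θ ^ (D * x) * μ) c0 b0 * (B ^ c) b0 b' :=
    Nat.mul_le_mul (by omega) (Nat.one_le_iff_ne_zero.2 h3)
  omega

theorem gr_perm {σ : Equiv.Perm γ} (hσ : ∀ i c, Θ i c = if c = σ i then 1 else 0)
    {τ : Equiv.Perm β} (hτ : Tau B τ) (hD : Dd Θ B D) (μ : Matrix γ β ℕ) (κ K : ℕ)
    (i : γ) (b : β) :
    ∃ p0 : ℕ, ∀ p, p0 ≤ p → ∃ a0 : ℕ, ∀ a c : ℕ, a0 ≤ a → a0 ≤ c → D ∣ a →
      a + c + D * p ≡ κ [MOD D] →
      (Up D κ Θ μ B i b →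
        (∃ s i' b', s ≤ D * p ∧ (Θ ^ s) i i' ≠ 0 ∧ (B ^ (D * p - s)) b' b ≠ 0 ∧
        K * (D * p + 1) ≤ (Θ ^ a * μ * B ^ c) i' b') ∨
          St B σ τ (Up D κ Θ μ B) (Up D (κ + (D - 1)) Θ μ B) i b) ∧
      (St B σ τ (Up D κ Θ μ B) (Up D (κ + (D - 1)) Θ μ B) i b →
        ∃ k : ℕ, 1 ≤ (Θ ^ a * μ * B ^ c) ((σ ^ k) i) ((τ ^ k) b)) := by
  classical
  have hσD := perm_D hσ hD.t1
  have hcon : ∀ a c p : ℕ, D ∣ a → a + c + D * p ≡ κ [MOD D] → c ≡ κ [MOD D] := by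
    rintro a c p ⟨y, rfl⟩ h
    refine Nat.ModEq.trans ?_ h
    rw [show D * y + c + D * p = c + D * (y + p) by ring]
    exact (mod_add_mul D c _).symm
  have hval : ∀ a c : ℕ, D ∣ a → ∀ i b, (Θ ^ a * μ * B ^ c) i b = (μ * B ^ c) i b := by
    rintro a c ⟨y, rfl⟩ i b
    rw [Matrix.mul_assoc, perm_pow_mul hσ, pow_mul, hσD, one_pow]
    rfl
  by_cases hu : Up D κ Θ μ B i b
  swap
  · exact ⟨0, fun p _ => ⟨0, fun a c _ _ _ _ => ⟨fun h => absurd h hu, fun h => absurd h.2.1 hu⟩⟩⟩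
  obtain ⟨j, k, hjk, hne⟩ := id hu
  rw [Matrix.mul_assoc, perm_pow_mul hσ] at hne
  by_cases h2 : Two B b
  · refine ⟨1, fun p hp => ⟨k + D * (K * (D * p + 1) + 1), fun a c ha hc hda htot =>
      ⟨fun _ => Or.inl ?_, fun h => absurd h2 h.1⟩⟩⟩
    have hcκ := hcon a c p hda htot
    obtain ⟨s, hs⟩ : ∃ s, s = j % D := ⟨_, rfl⟩
    have hsD : s < D := by rw [hs]; exact Nat.mod_lt _ hD.pos
    have hρ : (c - k) % D = s := by
      rw [hs]
      have h3 : (c - k) + k ≡ j + k [MOD D] := by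
        rw [Nat.sub_add_cancel (by omega)]
        exact hcκ.trans hjk.symm
      exact Nat.ModEq.add_right_cancel' k h3
    obtain ⟨x, hx⟩ : ∃ x, c = k + D * x + s := by
      refine ⟨(c - k) / D, ?_⟩
      have := Nat.div_add_mod (c - k) D
      omega
    have hx1 : K * (D * p + 1) ≤ x := by
      by_contra hlt
      have h3 : x + 1 ≤ K * (D * p + 1) := by omega
      have h4 : D * (x + 1) ≤ D * (K * (D * p + 1)) := Nat.mul_le_mul_left _ h3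
      rw [Nat.mul_succ] at h4
      rw [Nat.mul_succ] at hc
      omega
    have h3 := hD.b1 b
    rw [show D = s + (D - s) by omega, pow_add] at h3
    obtain ⟨b', h4, h5⟩ := mex h3
    have hDp : D ≤ D * p := Nat.le_mul_of_pos_right D hp
    have hσs : (σ ^ s) i = (σ ^ j) i := by
      rw [perm_cong hσD (show s ≡ j [MOD D] by rw [hs]; exact Nat.mod_modEq j D)]
    refine ⟨s, (σ ^ s) i, b', by omega, perm_pow_ne hσ s i, ?_, ?_⟩
    · obtain ⟨p', rfl⟩ : ∃ p', p = p' + 1 := ⟨p - 1, by omega⟩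
      rw [show D * (p' + 1) - s = (D - s) + D * p' by rw [Nat.mul_succ]; omega, pow_add]
      exact mne h5 (cl (hD.b1 b) p')
    · rw [hval a c hda, hσs, hx, pow_add, pow_add, ← Matrix.mul_assoc, ← Matrix.mul_assoc]
      have h6 := mul_entry_le (μ * B ^ k * B ^ (D * x)) (B ^ s) ((σ ^ j) i) b b'
      have h7 := mul_entry_le (μ * B ^ k) (B ^ (D * x)) ((σ ^ j) i) b b
      have h8 := cl2 (hD.b2 b h2) x
      have h9 : 1 * x ≤ (μ * B ^ k) ((σ ^ j) i) b * (B ^ (D * x)) b b :=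
        Nat.mul_le_mul (Nat.one_le_iff_ne_zero.2 hne) h8
      have h10 : x * 1 ≤ (μ * B ^ k * B ^ (D * x)) ((σ ^ j) i) b * (B ^ s) b b' :=
        Nat.mul_le_mul (by omega) (Nat.one_le_iff_ne_zero.2 h4)
      omega
  by_cases hext : ∃ (k0 : ℕ) (b' : β), Up D (κ + (D - 1)) Θ μ B ((σ ^ k0) i) b' ∧
      B b' ((τ ^ k0) b) ≠ 0 ∧ τ b' ≠ (τ ^ k0) b
  · obtain ⟨k0, b', ⟨j1, k1, hjk1, hne1⟩, hbb, hττ⟩ := hext
    rw [Matrix.mul_assoc, perm_pow_mul hσ] at hne1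
    refine ⟨1, fun p hp => ⟨k1 + 1 + D * (K * (D * p + 1) + 1), fun a c ha hc hda htot =>
      ⟨fun _ => Or.inl ?_, fun h => absurd (h.2.2 k0 b' ⟨j1, k1, hjk1, by
        rw [Matrix.mul_assoc, perm_pow_mul hσ]; exact hne1⟩ hbb) hττ⟩⟩⟩
    have hcκ := hcon a c p hda htot
    obtain ⟨ρ, hρ⟩ : ∃ ρ, ρ = (c - (k1 + 1)) % D := ⟨_, rfl⟩
    have hρD : ρ < D := by rw [hρ]; exact Nat.mod_lt _ hD.pos
    obtain ⟨x, hx⟩ : ∃ x, c = k1 + 1 + D * x + ρ := by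
      refine ⟨(c - (k1 + 1)) / D, ?_⟩
      have := Nat.div_add_mod (c - (k1 + 1)) D
      omega
    have hx1 : K * (D * p + 1) ≤ x := by
      by_contra hlt
      have h3 : x + 1 ≤ K * (D * p + 1) := by omega
      have h4 : D * (x + 1) ≤ D * (K * (D * p + 1)) := Nat.mul_le_mul_left _ h3
      rw [Nat.mul_succ] at h4
      rw [Nat.mul_succ] at hc
      omega
    have hρj : ρ ≡ j1 [MOD D] := by
      have h3 : ρ + (k1 + 1) ≡ j1 + (k1 + 1) [MOD D] := by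
        have e1 : c ≡ ρ + (k1 + 1) [MOD D] := by
          rw [show c = ρ + (k1 + 1) + D * x by omega]
          exact mod_add_mul D _ x
        have e2 : j1 + k1 + 1 ≡ κ [MOD D] := (hjk1.add_right 1).trans (shift1 hD.pos κ)
        exact e1.symm.trans (hcκ.trans e2.symm)
      exact Nat.ModEq.add_right_cancel' _ h3
    obtain ⟨s, hs⟩ : ∃ s, s = (j1 + k0) % D := ⟨_, rfl⟩
    have hsD : s < D := by rw [hs]; exact Nat.mod_lt _ hD.pos
    have hsj : s ≡ j1 + k0 [MOD D] := by rw [hs]; exact Nat.mod_modEq _ _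
    have hDp : D ≤ D * p := Nat.le_mul_of_pos_right D hp
    have hσs : (σ ^ s) i = (σ ^ j1) ((σ ^ k0) i) := by
      rw [perm_cong hσD hsj, pow_add, Equiv.Perm.mul_apply]
    have hτs : (τ ^ s) b = (τ ^ ρ) ((τ ^ k0) b) := by
      rw [← Equiv.Perm.mul_apply, ← pow_add]
      exact hτ.cong h2 (hD.b1 b) (hsj.trans (hρj.symm.add_right k0))
    refine ⟨s, (σ ^ s) i, (τ ^ s) b, by omega, perm_pow_ne hσ s i, ?_, ?_⟩
    · have h3 := hτ.path (hτ.nt h2 s) (D * p - s)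
      have e3 : (τ ^ (D * p - s)) ((τ ^ s) b) = b := by
        rw [← Equiv.Perm.mul_apply, ← pow_add, show D * p - s + s = D * p by omega]
        exact hτ.perx h2 (hD.b1 b) p
      rw [e3] at h3
      exact h3
    · rw [hval a c hda, hσs, hτs, hx, pow_add _ _ ρ, ← Matrix.mul_assoc]
      have h3 := lin3 hτ hD.pos hD.b1 (hτ.nt h2 k0) hττ hbb hne1 x
      have h4 := mul_entry_le (μ * B ^ (k1 + 1 + D * x)) (B ^ ρ) ((σ ^ j1) ((σ ^ k0) i))
        ((τ ^ k0) b) ((τ ^ ρ) ((τ ^ k0) b))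
      have h5 := hτ.path (hτ.nt h2 k0) ρ
      have h6 : (x + 1) * 1 ≤ (μ * B ^ (k1 + 1 + D * x)) ((σ ^ j1) ((σ ^ k0) i)) ((τ ^ k0) b) *
          (B ^ ρ) ((τ ^ k0) b) ((τ ^ ρ) ((τ ^ k0) b)) :=
        Nat.mul_le_mul h3 (Nat.one_le_iff_ne_zero.2 h5)
      omega
  · refine ⟨0, fun p hp => ⟨k, fun a c ha hc hda htot => ⟨fun _ => Or.inr ⟨h2, hu, ?_⟩,
      fun _ => ⟨j, ?_⟩⟩⟩⟩
    · intro k0 b' h3 h4
      by_contra h5
      exact hext ⟨k0, b', h3, h4, h5⟩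
    · have hcκ := hcon a c p hda htot
      rw [hval a c hda]
      have h3 : c - k ≡ j [MOD D] := by
        have h3 : (c - k) + k ≡ j + k [MOD D] := by
          rw [Nat.sub_add_cancel (by omega)]
          exact hcκ.trans hjk.symm
        exact Nat.ModEq.add_right_cancel' k h3
      rw [show c = k + (c - k) by omega, pow_add, ← Matrix.mul_assoc,
        ← hτ.cong h2 (hD.b1 b) h3]
      exact Nat.one_le_iff_ne_zero.2 (mne hne (hτ.path h2 (c - k)))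

theorem sta_perm {σ : Equiv.Perm γ} (hσ : ∀ i c, Θ i c = if c = σ i then 1 else 0)
    {τ : Equiv.Perm β} (hτ : Tau B τ) (hD : Dd Θ B D) (μ : Matrix γ β ℕ) (κ : ℕ) :
    Sta Θ B σ τ (Up D (κ + (D - 1)) Θ μ B)
      (St B σ τ (Up D κ Θ μ B) (Up D (κ + (D - 1)) Θ μ B)) where
  inv := by
    rintro i b ⟨h1, h2, h3⟩
    refine ⟨(hτ b h1).2.2, ?_, ?_⟩
    · have h4 := (h2.right (s := 1) (b' := τ b) (by
        rw [pow_one, (hτ b h1).1]; exact one_ne_zero)).left (s := D - 1) (i' := σ i) (by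
          rw [perm_pow_apply hσ, ← Equiv.Perm.mul_apply, ← pow_succ,
            show D - 1 + 1 = D by have := hD.pos; omega, perm_D hσ hD.t1]
          simp)
      refine h4.mod ?_
      rw [show κ + 1 + (D - 1) = κ + D * 1 by have := hD.pos; omega]
      exact mod_add_mul D κ 1
    · intro k b'
      have h4 := h3 (k + 1) b'
      rw [pow_succ, pow_succ, Equiv.Perm.mul_apply, Equiv.Perm.mul_apply] at h4
      exact h4
  th := fun i b _ c => hσ i c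
  bb := by
    rintro i b ⟨h1, h2, h3⟩ b' hV
    by_cases h4 : τ b' = b
    · rw [if_pos h4]
      have h5 : b' = (τ ^ (D - 1)) b := by
        apply τ.injective
        rw [h4, ← Equiv.Perm.mul_apply, ← pow_succ',
          show D - 1 + 1 = D by have := hD.pos; omega]
        exact (hτ.per h1 (hD.b1 b)).symm
      have h6 : ¬ Two B b' := by rw [h5]; exact hτ.nt h1 _
      have h7 := (hτ b' h6).1
      rw [h4] at h7
      exact h7
    · rw [if_neg h4]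
      by_contra h5
      exact h4 (h3 0 b' hV h5)

theorem gro (hΘ : Bo Θ) (hB : ∀ b, Rec B b) (hD : Dd Θ B D) : ∃ (σ : Equiv.Perm γ)
    (τ : Equiv.Perm β) (Sf : (γ → β → Prop) → (γ → β → Prop) → γ → β → Prop),
    ∀ (μ : Matrix γ β ℕ) (κ : ℕ),
      Gro D κ Θ μ B σ τ (Sf (Up D κ Θ μ B) (Up D (κ + (D - 1)) Θ μ B)) := by
  rcases hΘ with hΘ | ⟨σ, hσ⟩
  · refine ⟨1, 1, fun _ _ _ _ => False, fun μ κ => ⟨⟨?_, ?_, ?_⟩, fun K => ?_⟩⟩
    · intro i b h; exact h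
    · intro i b h; exact h.elim
    · intro i b h; exact h.elim
    · have h := fun v : γ × β => gr_two hΘ hD μ κ K v.1 v.2
      choose p0 hp0 using h
      refine ⟨Finset.univ.sup p0, fun p hp => ?_⟩
      have h2 := fun v : γ × β => hp0 v p ((Finset.le_sup (f := p0) (Finset.mem_univ v)).trans hp)
      choose a0 ha0 using h2
      refine ⟨Finset.univ.sup a0, fun a c ha hc hda htot i b => ?_⟩
      have h3 := Finset.le_sup (f := a0) (Finset.mem_univ (i, b))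
      exact ⟨fun hu => Or.inl (ha0 (i, b) a c (h3.trans ha) (h3.trans hc) hda htot hu),
        fun h => h.elim⟩
  · obtain ⟨τ, hτ⟩ := exists_tau hB
    refine ⟨σ, τ, St B σ τ, fun μ κ => ⟨sta_perm hσ hτ hD μ κ, fun K => ?_⟩⟩
    have h := fun v : γ × β => gr_perm hσ hτ hD μ κ K v.1 v.2
    choose p0 hp0 using h
    refine ⟨Finset.univ.sup p0, fun p hp => ?_⟩
    have h2 := fun v : γ × β => hp0 v p ((Finset.le_sup (f := p0) (Finset.mem_univ v)).trans hp)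
    choose a0 ha0 using h2
    refine ⟨Finset.univ.sup a0, fun a c ha hc hda htot i b => ?_⟩
    have h3 := Finset.le_sup (f := a0) (Finset.mem_univ (i, b))
    exact ha0 (i, b) a c (h3.trans ha) (h3.trans hc) hda htot

end

end Run7.h850.SC
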