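import Pool.Agent.Run7.h850.SC.Use

/-!
# Weighted cycles
-/

set_option autoImplicit false
set_option linter.unusedSectionVars false
set_option linter.unusedVariables false

namespace Run7.h850.SC

open Matrix Pool.Agent.H812R2.SSE
open Run7.h850.SS hiding Bo Gw Fam PB fam_pb core2 loc_glob glue block_step gd_sub gd_blocks fam_iso' reduce3 gw_of_gd

variable {ι : Type} [Fintype ι] [DecidableEq ι]

/-- the matrix of a weighted permutation -/
def Wc (σ : Equiv.Perm ι) (a : ι → ℕ) : Matrix ι ι ℕ := fun i c => if c = σ i then a i else 0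

theorem Wc_mul {δ : Type} (σ : Equiv.Perm ι) (a : ι → ℕ) (X : Matrix ι δ ℕ) (i : ι) (c : δ) :
    (Wc σ a * X) i c = a i * X (σ i) c := by
  rw [Matrix.mul_apply, Finset.sum_eq_single (σ i)]
  · unfold Wc; rw [if_pos rfl]
  · intro x _ hx
    unfold Wc; rw [if_neg hx, zero_mul]
  · intro h; exact absurd (Finset.mem_univ _) h

theorem Wc_pow (σ : Equiv.Perm ι) (a : ι → ℕ) (ha : ∀ i, 1 ≤ a i) (k : ℕ) :
    ∃ w : ι → ℕ, (∀ i, 1 ≤ w i) ∧ (∀ i c, (Wc σ a ^ k) i c = if (σ ^ k) i = c then w i else 0) ∧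
      ∀ q : ℕ, q.Prime → ∀ i, q ∣ w i → q ∣ ∏ j, a j := by
  induction k with
  | zero =>
    refine ⟨fun _ => 1, fun _ => le_rfl, fun i c => ?_, fun q hq i h => ?_⟩
    · rw [pow_zero, Matrix.one_apply]; rfl
    · exact absurd (Nat.dvd_one.1 h) hq.one_lt.ne'
  | succ k ih =>
    obtain ⟨w, h1, h2, h3⟩ := ih
    refine ⟨fun i => a i * w (σ i), fun i => Nat.mul_pos (ha i) (h1 _), fun i c => ?_,
      fun q hq i h => ?_⟩
    · rw [pow_succ', Wc_mul, h2, pow_succ, Equiv.Perm.mul_apply]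
      split
      · rfl
      · rw [mul_zero]
    · rcases (Nat.Prime.dvd_mul hq).1 h with h | h
      · exact h.trans (Finset.dvd_prod_of_mem a (Finset.mem_univ i))
      · exact h3 q hq _ h

theorem diag_Wc (σ : Equiv.Perm ι) (u v : ι → ℕ) :
    Matrix.diagonal u * Wc σ v = Wc σ (fun i => u i * v i) := by
  ext i c
  rw [Matrix.diagonal_mul]
  unfold Wc
  split
  · rfl
  · rw [mul_zero]

theorem Wc_diag (σ : Equiv.Perm ι) (u v : ι → ℕ) :
    Wc σ v * Matrix.diagonal u = Wc σ (fun i => v i * u (σ i)) := by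
  ext i c
  rw [Matrix.mul_diagonal]
  unfold Wc
  by_cases h : c = σ i
  · rw [if_pos h, if_pos h, h]
  · rw [if_neg h, if_neg h, zero_mul]

theorem core_mo (σ : Equiv.Perm ι) (hσ : ∀ i j, ∃ p : ℕ, (σ ^ p) i = j) : ∀ (N : ℕ)
    (a b r : ι → ℕ), ∑ i, r i ≤ N → (∀ i, 1 ≤ r i) → (∀ i, a i * r (σ i) = r i * b i) →
    (∀ q : ℕ, q.Prime → ∀ i, q ∣ r i → q ∣ ∏ j, a j) →
    CH ⟨ι, Wc σ a⟩ ⟨ι, Wc σ b⟩ (Matrix.diagonal r) := by
  intro N
  induction N with
  | zero =>
    intro a b r hN hr hab _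
    have hr0 : ∀ i, r i = 1 := by
      intro i
      have := Finset.single_le_sum (f := r) (fun _ _ => Nat.zero_le _) (Finset.mem_univ i)
      have := hr i
      omega
    have e1 : r = fun _ => 1 := funext hr0
    have e2 : a = b := by
      ext i
      have := hab i
      rw [hr0, hr0, mul_one, one_mul] at this
      exact this
    rw [e1, e2]
    have : (Matrix.diagonal (fun _ => 1) : Matrix ι ι ℕ) = 1 := Matrix.diagonal_one
    rw [this]
    exact CH.refl _
  | succ N ih =>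
    intro a b r hN hr hab hdiv
    by_cases hr0 : ∀ i, r i = 1
    · have e1 : r = fun _ => 1 := funext hr0
      have e2 : a = b := by
        ext i
        have := hab i
        rw [hr0, hr0, mul_one, one_mul] at this
        exact this
      rw [e1, e2]
      have : (Matrix.diagonal (fun _ => 1) : Matrix ι ι ℕ) = 1 := Matrix.diagonal_one
      rw [this]
      exact CH.refl _
    push Not at hr0
    obtain ⟨i0, hi0⟩ := hr0
    obtain ⟨q, hq, hqi⟩ := Nat.exists_prime_and_dvd hi0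
    obtain ⟨j, hja, hjr⟩ : ∃ j, q ∣ a j ∧ q ∣ r j := by
      by_contra hcon
      push Not at hcon
      have hstep : ∀ j, q ∣ r j → q ∣ r (σ j) := by
        intro j hj
        have h1 : q ∣ a j * r (σ j) := by rw [hab]; exact hj.mul_right _
        rcases (Nat.Prime.dvd_mul hq).1 h1 with h | h
        · exact absurd hj (hcon j h)
        · exact h
      have hall : ∀ p : ℕ, q ∣ r ((σ ^ p) i0) := by
        intro p
        induction p with
        | zero => exact hqi
        | succ p ihp => rw [pow_succ', Equiv.Perm.mul_apply]; exact hstep _ ihp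
      obtain ⟨j, _, hj⟩ := (Nat.prime_iff.1 hq).exists_mem_finset_dvd (hdiv q hq i0 hqi)
      obtain ⟨p, hp⟩ := hσ i0 j
      exact hcon j hj (hp ▸ hall p)
    obtain ⟨u, hu⟩ : ∃ u : ι → ℕ, ∀ i, u i = if i = j then q else 1 := ⟨_, fun _ => rfl⟩
    have hu1 : ∀ i, 1 ≤ u i := by
      intro i; rw [hu]; split
      · exact hq.one_lt.le
      · exact le_rfl
    obtain ⟨v, hv⟩ : ∃ v : ι → ℕ, ∀ i, a i = u i * v i := by
      have : ∀ i, ∃ x, a i = u i * x := by
        intro i
        rw [hu]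
        by_cases h : i = j
        · rw [if_pos h, h]; exact hja
        · rw [if_neg h]; exact ⟨a i, (one_mul _).symm⟩
      choose v hv using this
      exact ⟨v, hv⟩
    obtain ⟨r', hr'⟩ : ∃ r' : ι → ℕ, ∀ i, r i = u i * r' i := by
      have : ∀ i, ∃ x, r i = u i * x := by
        intro i
        rw [hu]
        by_cases h : i = j
        · rw [if_pos h, h]; exact hjr
        · rw [if_neg h]; exact ⟨r i, (one_mul _).symm⟩
      choose v hv using this
      exact ⟨v, hv⟩
    have hr'1 : ∀ i, 1 ≤ r' i := by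
      intro i
      have h1 := hr i
      rw [hr'] at h1
      by_contra h2
      have h3 : r' i = 0 := by omega
      rw [h3, mul_zero] at h1
      omega
    have hsum : ∑ i, r' i ≤ N := by
      have h1 : ∑ i, r' i < ∑ i, r i := by
        refine Finset.sum_lt_sum (fun i _ => ?_) ⟨j, Finset.mem_univ _, ?_⟩
        · rw [hr' i]; exact Nat.le_mul_of_pos_left _ (hu1 i)
        · rw [hr' j, hu, if_pos rfl]
          have h2 := hr'1 j
          have h3 := hq.two_le
          have h4 : 2 * r' j ≤ q * r' j := Nat.mul_le_mul_right _ h3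
          omega
      omega
    have hnew : ∀ i, (v i * u (σ i)) * r' (σ i) = r' i * b i := by
      intro i
      have h1 := hab i
      rw [hv i, hr' (σ i), hr' i] at h1
      have h2 : u i * ((v i * u (σ i)) * r' (σ i)) = u i * (r' i * b i) := by
        calc u i * ((v i * u (σ i)) * r' (σ i)) = u i * v i * (u (σ i) * r' (σ i)) := by ring
          _ = u i * r' i * b i := h1
          _ = u i * (r' i * b i) := by ring
      exact Nat.eq_of_mul_eq_mul_left (hu1 i) h2
    have hprod : ∏ i, (v i * u (σ i)) = ∏ i, a i := by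
      rw [Finset.prod_mul_distrib, Equiv.prod_comp σ u, ← Finset.prod_mul_distrib]
      exact Finset.prod_congr rfl fun i _ => by rw [hv i, mul_comm]
    have c := ih (fun i => v i * u (σ i)) b r' hsum hr'1 hnew (fun q' hq' i h => by
      rw [hprod]
      exact hdiv q' hq' i (by rw [hr' i]; exact h.mul_left _))
    have c1 : CH ⟨ι, Wc σ a⟩ ⟨ι, Wc σ (fun i => v i * u (σ i))⟩ (Matrix.diagonal u) := by
      refine CH.single (X := ⟨ι, Wc σ a⟩) (Y := ⟨ι, Wc σ (fun i => v i * u (σ i))⟩)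
        (Matrix.diagonal u) (Wc σ v) ?_ ?_
      · rw [diag_Wc]
        change Wc σ a = _
        rw [show a = fun i => u i * v i from funext hv]
      · rw [Wc_diag]
    have c2 := c1.trans c
    have e : (Matrix.diagonal u : Matrix ι ι ℕ) * Matrix.diagonal r' = Matrix.diagonal r := by
      rw [Matrix.diagonal_mul_diagonal, show r = fun i => u i * r' i from funext hr']
    rw [← e]
    exact c2

/-- weighted cycles -/
def Mo (X : Obj) : Prop :=
  ∃ (σ : Equiv.Perm X.ι) (a : X.ι → ℕ), (∀ i, 1 ≤ a i) ∧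
    (∀ i c, X.M i c = if c = σ i then a i else 0) ∧ ∀ i j, ∃ p : ℕ, (σ ^ p) i = j

/-- the matrices of a shift equivalence between matrices of weighted permutations -/
theorem mono_fun {X Y : Obj} {f : X.ι → X.ι} (hf : Function.Injective f)
    {g : Y.ι → Y.ι} (hg : Function.Injective g)
    {R : Matrix X.ι Y.ι ℕ} {S : Matrix Y.ι X.ι ℕ}
    (h1 : ∀ i c, (R * S) i c ≠ 0 ↔ c = f i) (h2 : ∀ k c, (S * R) k c ≠ 0 ↔ c = g k) :
    ∃ (φ : X.ι → Y.ι) (r : X.ι → ℕ), (∀ i, 1 ≤ r i) ∧ ∀ i k, R i k = if k = φ i then r i else 0 := by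
  have hrow : ∀ i, ∃ k, R i k ≠ 0 := by
    intro i
    obtain ⟨k, h3, _⟩ := mex ((h1 i (f i)).2 rfl)
    exact ⟨k, h3⟩
  have hrowS : ∀ k, ∃ j, S k j ≠ 0 := by
    intro k
    obtain ⟨j, h3, _⟩ := mex ((h2 k (g k)).2 rfl)
    exact ⟨j, h3⟩
  have hRS : ∀ i k j, R i k ≠ 0 → S k j ≠ 0 → j = f i := fun i k j h3 h4 =>
    (h1 i j).1 (mne h3 h4)
  have hSR : ∀ k j x, S k j ≠ 0 → R j x ≠ 0 → x = g k := fun k j x h3 h4 =>
    (h2 k x).1 (mne h3 h4)
  have huniq : ∀ i k k', R i k ≠ 0 → R i k' ≠ 0 → k = k' := by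
    intro i k k' h3 h4
    obtain ⟨j, hj⟩ := hrowS k
    obtain ⟨j', hj'⟩ := hrowS k'
    have e1 := hRS i k j h3 hj
    have e2 := hRS i k' j' h4 hj'
    rw [← e1] at e2
    rw [e2] at hj'
    obtain ⟨x, hx⟩ := hrow j
    have e3 := hSR k j x hj hx
    have e4 := hSR k' j x hj' hx
    exact hg (e3.symm.trans e4)
  choose φ hφ using hrow
  refine ⟨φ, fun i => R i (φ i), fun i => Nat.one_le_iff_ne_zero.2 (hφ i), fun i k => ?_⟩
  by_cases hk : k = φ i
  · rw [if_pos hk, hk]
  · rw [if_neg hk]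
    by_contra hne
    exact hk (huniq i k (φ i) hne (hφ i))

theorem rl_mo {X Y : Obj} (hX : Mo X) (hY : Mo Y) : Rl X Y := by
  obtain ⟨σ, a, ha, hσ, hσ'⟩ := hX
  obtain ⟨τ, b, hb, hτ, hτ'⟩ := hY
  intro l hl R S h1 h2 h3 h4
  have eX : X.M = Wc σ a := by ext i c; exact hσ i c
  have eY : Y.M = Wc τ b := by ext i c; exact hτ i c
  obtain ⟨w, hw1, hw2, hw3⟩ := Wc_pow σ a ha l
  obtain ⟨w', hw1', hw2', hw3'⟩ := Wc_pow τ b hb l
  have hRS : ∀ i c, (R * S) i c ≠ 0 ↔ c = (σ ^ l) i := by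
    intro i c
    rw [h1, eX, hw2]
    constructor
    · intro h
      by_contra hne
      exact h (if_neg (fun h0 => hne h0.symm))
    · intro h
      rw [if_pos h.symm]
      have := hw1 i
      omega
  have hSR : ∀ i c, (S * R) i c ≠ 0 ↔ c = (τ ^ l) i := by
    intro i c
    rw [h2, eY, hw2']
    constructor
    · intro h
      by_contra hne
      exact h (if_neg (fun h0 => hne h0.symm))
    · intro h
      rw [if_pos h.symm]
      have := hw1' i
      omega
  obtain ⟨φ, r, hr, hφ⟩ := mono_fun (σ ^ l).injective (τ ^ l).injective hRS hSR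
  obtain ⟨ψ, s, hs, hψ⟩ := mono_fun (X := Y) (Y := X) (τ ^ l).injective (σ ^ l).injective hSR hRS
  have hRφ : ∀ i, R i (φ i) ≠ 0 := fun i => by rw [hφ, if_pos rfl]; have := hr i; omega
  have hSψ : ∀ k, S k (ψ k) ≠ 0 := fun k => by rw [hψ, if_pos rfl]; have := hs k; omega
  have e1 : ∀ i, ψ (φ i) = (σ ^ l) i := fun i => (hRS i _).1 (mne (hRφ i) (hSψ _))
  have e2 : ∀ k, φ (ψ k) = (τ ^ l) k := fun k => (hSR k _).1 (mne (hSψ k) (hRφ _))
  have hinj : Function.Injective φ := by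
    intro a b hab
    apply (σ ^ l).injective
    rw [← e1, ← e1, hab]
  have hsur : Function.Surjective φ := by
    intro k
    refine ⟨ψ ((τ ^ l).symm k), ?_⟩
    rw [e2, Equiv.apply_symm_apply]
  let e : X.ι ≃ Y.ι := Equiv.ofBijective φ ⟨hinj, hsur⟩
  have he : ∀ i, e i = φ i := fun i => rfl
  have k1 : ∀ i k, (X.M * R) i k = a i * R (σ i) k := by
    intro i k; rw [eX, Wc_mul]
  have k2 : ∀ i k, (R * Y.M) i k = r i * Y.M (φ i) k := by
    intro i k
    rw [Matrix.mul_apply, Finset.sum_eq_single (φ i)]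
    · rw [hφ, if_pos rfl]
    · intro x _ hx
      rw [hφ, if_neg hx, zero_mul]
    · intro h; exact absurd (Finset.mem_univ _) h
  have e3 : ∀ i, φ (σ i) = τ (φ i) := by
    intro i
    have h5 := congrFun (congrFun h3 i) (φ (σ i))
    rw [k1, k2, hφ, if_pos rfl, hτ] at h5
    by_contra hne
    rw [if_neg hne, mul_zero] at h5
    have := Nat.mul_pos (ha i) (hr (σ i))
    omega
  have e4 : ∀ i, a i * r (σ i) = r i * b (φ i) := by
    intro i
    have h5 := congrFun (congrFun h3 i) (φ (σ i))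
    rw [k1, k2, hφ, if_pos rfl, hτ, if_pos (e3 i)] at h5
    exact h5
  have hdiv : ∀ q : ℕ, q.Prime → ∀ i, q ∣ r i → q ∣ ∏ j, a j := by
    intro q hq i h
    refine hw3 q hq i ?_
    have h5 : (R * S) i ((σ ^ l) i) = w i := by rw [h1, eX, hw2, if_pos rfl]
    have h6 : (R * S) i ((σ ^ l) i) = r i * S (φ i) ((σ ^ l) i) := by
      rw [Matrix.mul_apply, Finset.sum_eq_single (φ i)]
      · rw [hφ, if_pos rfl]
      · intro x _ hx
        rw [hφ, if_neg hx, zero_mul]
      · intro h; exact absurd (Finset.mem_univ _) h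
    rw [← h5, h6]
    exact h.mul_right _
  have c1 := core_mo σ hσ' _ a (fun i => b (φ i)) r le_rfl hr e4 hdiv
  obtain ⟨Pf, hPf⟩ : ∃ Pf : Matrix X.ι Y.ι ℕ, ∀ i k, Pf i k = if e i = k then 1 else 0 :=
    ⟨fun i k => if e i = k then 1 else 0, fun _ _ => rfl⟩
  have c2 : CH ⟨X.ι, Wc σ (fun i => b (φ i))⟩ Y Pf := by
    refine ch_iso3 (X := ⟨X.ι, Wc σ (fun i => b (φ i))⟩) e (fun i c => ?_) _ hPf
    change Y.M (e i) (e c) = if c = σ i then b (φ i) else 0
    rw [he, he, hτ, ← e3]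
    by_cases hc : c = σ i
    · rw [if_pos hc, if_pos (by rw [hc])]
    · rw [if_neg hc, if_neg (fun h => hc (hinj h))]
  refine ⟨0, ?_⟩
  rw [pow_zero, Matrix.one_mul]
  have c3 := c1.trans c2
  have e5 : Matrix.diagonal r * Pf = R := by
    ext i k
    rw [Matrix.diagonal_mul, hφ, hPf, he]
    by_cases hk : k = φ i
    · rw [if_pos hk, if_pos hk.symm, mul_one]
    · rw [if_neg hk, if_neg (fun h => hk h.symm), mul_zero]
  rw [e5] at c3
  have c0 : CH X ⟨X.ι, Wc σ a⟩ 1 := by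
    refine ch_iso3 (X := X) (Y := ⟨X.ι, Wc σ a⟩) (Equiv.refl X.ι) (fun i c => ?_) _
      (fun i c => ?_)
    · exact (hσ i c).symm
    · rw [Matrix.one_apply]; rfl
  have c4 := c0.trans c3
  rw [Matrix.one_mul] at c4
  exact c4

/-- a weighted cycle of length at least two is not shift equivalent to a primitive matrix -/
theorem mo_prim {X Y : Obj} (hX : Mo X) (h2 : Nontrivial X.ι)
    (hY : ∃ N : ℕ, ∀ a b, (Y.M ^ N) a b ≠ 0) {l : ℕ} {R : Matrix X.ι Y.ι ℕ}
    {S : Matrix Y.ι X.ι ℕ} (h1 : R * S = X.M ^ l) (h4 : S * X.M = Y.M * S) : False := by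
  obtain ⟨σ, a, ha, hσ, _⟩ := hX
  obtain ⟨N, hN⟩ := hY
  have eX : X.M = Wc σ a := by ext i c; exact hσ i c
  have hpow : ∀ l i c, (X.M ^ l) i c ≠ 0 ↔ (σ ^ l) i = c := by
    intro l i c
    obtain ⟨w, hw1, hw2, _⟩ := Wc_pow σ a ha l
    rw [eX, hw2]
    have := hw1 i
    constructor
    · intro h
      by_contra hne
      exact h (if_neg hne)
    · intro h
      rw [if_pos h]; omega
  have hall : ∀ i j, (X.M ^ (l + N)) i j ≠ 0 := by
    intro i j
    have e1 : X.M ^ (l + N) = R * Y.M ^ N * S := by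
      rw [pow_add, ← h1, Matrix.mul_assoc, Matrix.mul_assoc,
        semiconj_pow Y.M X.M S h4.symm N]
    rw [e1]
    have h5 := (hpow l i _).2 rfl
    rw [← h1] at h5
    obtain ⟨a, ha, _⟩ := mex h5
    have h6 := (hpow l ((σ ^ l).symm j) j).2 (Equiv.apply_symm_apply _ _)
    rw [← h1] at h6
    obtain ⟨b, _, hb⟩ := mex h6
    exact mne (mne ha (hN a b)) hb
  obtain ⟨i, j, hij⟩ := h2
  exact hij (((hpow _ _ _).1 (hall i i)).symm.trans ((hpow _ _ _).1 (hall i j)))

end Run7.h850.SC
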