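import Pool.Agent.Run7.h850.SC.Cyc

/-!
# Legal paths of moves with static orbits
-/

set_option autoImplicit false
set_option linter.unusedSectionVars false
set_option linter.unusedVariables false

namespace Run7.h850.SC

open Matrix Pool.Agent.H812R2.SSE
open Run7.h850.SS hiding Bo Gw Fam PB fam_pb core2 loc_glob glue block_step gd_sub gd_blocks fam_iso' reduce3 gw_of_gd
open Run7.h850.SG (Pth)

variable {γ β : Type} [Fintype γ] [DecidableEq γ] [Fintype β] [DecidableEq β]

/-- static positions -/
structure Sta (Θ : Matrix γ γ ℕ) (B : Matrix β β ℕ) (σ : Equiv.Perm γ) (τ : Equiv.Perm β)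
    (V S : γ → β → Prop) : Prop where
  inv : ∀ i b, S i b → S (σ i) (τ b)
  th : ∀ i b, S i b → ∀ c, Θ i c = if c = σ i then 1 else 0
  bb : ∀ i b, S i b → ∀ b', V i b' → B b' b = if τ b' = b then 1 else 0

/-- every static orbit has a chip -/
def Chp (σ : Equiv.Perm γ) (τ : Equiv.Perm β) (S : γ → β → Prop) (n : Matrix γ β ℕ) : Prop :=
  ∀ i b, S i b → ∃ k : ℕ, 1 ≤ n ((σ ^ k) i) ((τ ^ k) b)

variable {Θ : Matrix γ γ ℕ} {B : Matrix β β ℕ} {σ : Equiv.Perm γ} {τ : Equiv.Perm β}
  {V S : γ → β → Prop}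

theorem Sta.invk (h : Sta Θ B σ τ V S) {i : γ} {b : β} (hS : S i b) (k : ℕ) :
    S ((σ ^ k) i) ((τ ^ k) b) := by
  induction k with
  | zero => exact hS
  | succ k ih =>
    rw [pow_succ', pow_succ', Equiv.Perm.mul_apply, Equiv.Perm.mul_apply]
    exact h.inv _ _ ih

theorem common (σ : Equiv.Perm γ) (τ : Equiv.Perm β) : ∃ M : ℕ, 1 ≤ M ∧ σ ^ M = 1 ∧ τ ^ M = 1 := by
  refine ⟨orderOf σ * orderOf τ, Nat.mul_pos (orderOf_pos σ) (orderOf_pos τ), ?_, ?_⟩
  · rw [pow_mul, pow_orderOf_eq_one, one_pow]
  · rw [mul_comm, pow_mul, pow_orderOf_eq_one, one_pow]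

theorem fireable (h : Sta Θ B σ τ V S) {n n' E : Matrix γ β ℕ} (he : n' + E * B = n + Θ * E)
    (hV : ∀ i b, E i b ≠ 0 → V i b) (hn : ∀ i b, ¬ S i b → (E * B) i b ≤ n i b)
    (hc : Chp σ τ S n) (hE : E ≠ 0) : ∃ i b, E i b ≠ 0 ∧ ∀ b', B b b' ≤ n i b' := by
  classical
  by_contra hcon
  push Not at hcon
  have key : ∀ i b, E i b ≠ 0 → S i (τ b) ∧ n i (τ b) = 0 := by
    intro i b hib
    obtain ⟨b', hb'⟩ := hcon i b hib
    have hS : S i b' := by
      by_contra hS
      have h1 := hn i b' hS
      have h2 := mul_entry_le E B i b b'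
      have h3 : 1 * B b b' ≤ E i b * B b b' :=
        Nat.mul_le_mul_right _ (Nat.one_le_iff_ne_zero.2 hib)
      omega
    have h4 := h.bb i b' hS b (hV i b hib)
    have h5 : τ b = b' := by
      by_contra hne
      rw [if_neg hne] at h4
      omega
    rw [if_pos h5] at h4
    rw [h5]
    exact ⟨hS, by omega⟩
  obtain ⟨i, b, hib⟩ : ∃ i b, E i b ≠ 0 := by
    by_contra h0
    push Not at h0
    exact hE (by ext i b; exact h0 i b)
  have hall : ∀ k : ℕ, E ((σ ^ k) i) ((τ ^ k) b) ≠ 0 := by
    intro k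
    induction k with
    | zero => exact hib
    | succ k ih =>
      obtain ⟨i', hi'⟩ : ∃ i', i' = (σ ^ k) i := ⟨_, rfl⟩
      obtain ⟨b', hb'⟩ : ∃ b', b' = (τ ^ k) b := ⟨_, rfl⟩
      rw [pow_succ', pow_succ', Equiv.Perm.mul_apply, Equiv.Perm.mul_apply, ← hi', ← hb']
      rw [← hi', ← hb'] at ih
      obtain ⟨h1, h2⟩ := key i' b' ih
      have h3 := congrFun (congrFun he i') (τ b')
      change n' i' (τ b') + (E * B) i' (τ b') = n i' (τ b') + (Θ * E) i' (τ b') at h3
      have h4 := h.bb _ _ h1 b' (hV _ _ ih)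
      rw [if_pos rfl] at h4
      have h5 := mul_entry_le E B i' b' (τ b')
      rw [h4, mul_one] at h5
      have h6 : (Θ * E) i' (τ b') = E (σ i') (τ b') := by
        rw [Matrix.mul_apply, Finset.sum_eq_single (σ i')]
        · rw [h.th _ _ h1, if_pos rfl, one_mul]
        · intro c _ hc
          rw [h.th _ _ h1, if_neg hc, zero_mul]
        · intro h; exact absurd (Finset.mem_univ _) h
      omega
  obtain ⟨k, hk⟩ := hc i (τ b) (key i b hib).1
  have h1 := (key _ _ (hall k)).2
  have h2 : τ ((τ ^ k) b) = (τ ^ k) (τ b) := by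
    rw [← Equiv.Perm.mul_apply, ← Equiv.Perm.mul_apply, ← pow_succ', pow_succ]
  rw [h2] at h1
  omega

theorem tot_add (X Y : Matrix γ β ℕ) : tot (X + Y) = tot X + tot Y := by
  unfold tot
  rw [← Finset.sum_add_distrib]
  refine Finset.sum_congr rfl fun i _ => ?_
  rw [← Finset.sum_add_distrib]
  rfl

theorem greedy (h : Sta Θ B σ τ V S) : ∀ (N : ℕ) (n n' E : Matrix γ β ℕ), tot E = N →
    n' + E * B = n + Θ * E → (∀ i b, E i b ≠ 0 → V i b) →
    (∀ i b, ¬ S i b → (E * B) i b ≤ n i b) →
    Chp σ τ S n → Pth Θ B n n' E ∧ Chp σ τ S n' := by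
  intro N
  induction N using Nat.strong_induction_on with
  | _ N ih =>
    intro n n' E hN he hV hn hc
    by_cases hE : E = 0
    · subst hE
      rw [Matrix.zero_mul, Matrix.mul_zero, add_zero, add_zero] at he
      subst he
      exact ⟨Pth.refl _, hc⟩
    obtain ⟨i, b, hib, hB⟩ := fireable h he hV hn hc hE
    obtain ⟨F, hF⟩ : ∃ F : Matrix γ β ℕ, ∀ i' b', F i' b' = if i' = i ∧ b' = b then 1 else 0 :=
      ⟨fun i' b' => if i' = i ∧ b' = b then 1 else 0, fun _ _ => rfl⟩
    have hFib : F i b = 1 := by rw [hF, if_pos ⟨rfl, rfl⟩]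
    have hFB : ∀ i' b', (F * B) i' b' = if i' = i then B b b' else 0 := by
      intro i' b'
      rw [Matrix.mul_apply, Finset.sum_eq_single b]
      · rw [hF]
        by_cases hi : i' = i
        · rw [if_pos ⟨hi, rfl⟩, if_pos hi, one_mul]
        · rw [if_neg (fun h => hi h.1), if_neg hi, zero_mul]
      · intro b1 _ hb1
        rw [hF, if_neg (fun h => hb1 h.2), zero_mul]
      · intro h; exact absurd (Finset.mem_univ _) h
    obtain ⟨E1, hE1⟩ : ∃ E1 : Matrix γ β ℕ, E = E1 + F := by
      refine ⟨fun i' b' => E i' b' - F i' b', ?_⟩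
      ext i' b'
      change E i' b' = E i' b' - F i' b' + F i' b'
      rw [hF]
      by_cases hi : i' = i ∧ b' = b
      · rw [if_pos hi, hi.1, hi.2]; omega
      · rw [if_neg hi]; omega
    obtain ⟨w, hw⟩ : ∃ w : Matrix γ β ℕ, n = w + F * B := by
      refine ⟨fun i' b' => n i' b' - (F * B) i' b', ?_⟩
      ext i' b'
      change n i' b' = n i' b' - (F * B) i' b' + (F * B) i' b'
      rw [hFB]
      by_cases hi : i' = i
      · have := hB b'
        rw [if_pos hi, hi]; omega
      · rw [if_neg hi]; omega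
    have hn1 : n' + E1 * B = (w + Θ * F) + Θ * E1 := by
      have h1 := he
      rw [hE1, hw, Matrix.add_mul, Matrix.mul_add] at h1
      have h2 : (n' + E1 * B) + F * B = (w + Θ * F + Θ * E1) + F * B := by
        calc (n' + E1 * B) + F * B = n' + (E1 * B + F * B) := by abel
          _ = w + F * B + (Θ * E1 + Θ * F) := h1
          _ = (w + Θ * F + Θ * E1) + F * B := by abel
      exact add_right_cancel h2
    have hc1 : Chp σ τ S (w + Θ * F) := by
      intro i1 b1 h1
      obtain ⟨k, hk⟩ := hc i1 b1 h1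
      by_cases hk0 : 1 ≤ w ((σ ^ k) i1) ((τ ^ k) b1)
      · refine ⟨k, ?_⟩
        change 1 ≤ w ((σ ^ k) i1) ((τ ^ k) b1) + (Θ * F) ((σ ^ k) i1) ((τ ^ k) b1)
        omega
      · obtain ⟨M, hM, hM1, hM2⟩ := common σ τ
        have hx := h.invk h1 k
        have h2 : (F * B) ((σ ^ k) i1) ((τ ^ k) b1) ≠ 0 := by
          intro h0
          have h3 := congrFun (congrFun hw ((σ ^ k) i1)) ((τ ^ k) b1)
          change n ((σ ^ k) i1) ((τ ^ k) b1) = w ((σ ^ k) i1) ((τ ^ k) b1) +
            (F * B) ((σ ^ k) i1) ((τ ^ k) b1) at h3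
          omega
        rw [hFB] at h2
        have h3 : (σ ^ k) i1 = i := by
          by_contra hne; rw [if_neg hne] at h2; exact h2 rfl
        rw [if_pos h3] at h2
        have h4 : τ b = (τ ^ k) b1 := by
          by_contra hne
          have := h.bb _ _ hx b (hV _ _ (by rw [h3]; exact hib))
          rw [if_neg hne] at this
          exact h2 this
        refine ⟨k + (M - 1), ?_⟩
        have e1 : σ ((σ ^ (k + (M - 1))) i1) = i := by
          rw [← Equiv.Perm.mul_apply, ← pow_succ', show k + (M - 1) + 1 = k + M by omega,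
            pow_add, hM1, mul_one, h3]
        have e2 : (τ ^ (k + (M - 1))) b1 = b := by
          apply τ.injective
          rw [h4, ← Equiv.Perm.mul_apply, ← pow_succ', show k + (M - 1) + 1 = k + M by omega,
            pow_add, hM2, mul_one]
        have hy := h.invk h1 (k + (M - 1))
        have h5 := h.th _ _ hy i
        rw [if_pos e1.symm] at h5
        have h6 := mul_entry_le Θ F ((σ ^ (k + (M - 1))) i1) i b
        rw [h5, hFib] at h6
        rw [e2]
        change 1 ≤ w ((σ ^ (k + (M - 1))) i1) b + (Θ * F) ((σ ^ (k + (M - 1))) i1) b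
        omega
    have htot : tot E1 < N := by
      rw [← hN, hE1, tot_add]
      have := le_tot F i b
      omega
    have hle : ∀ i' b', ¬ S i' b' → (E1 * B) i' b' ≤ (w + Θ * F) i' b' := by
      intro i' b' hS
      have h1 := hn i' b' hS
      rw [hE1, hw, Matrix.add_mul] at h1
      change (E1 * B) i' b' + (F * B) i' b' ≤ w i' b' + (F * B) i' b' at h1
      change (E1 * B) i' b' ≤ w i' b' + (Θ * F) i' b'
      omega
    obtain ⟨p, q⟩ := ih (tot E1) htot (w + Θ * F) n' E1 rfl hn1 (fun i' b' h0 => hV i' b' (by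
      rw [hE1]
      change E1 i' b' + F i' b' ≠ 0
      omega)) hle hc1
    exact ⟨((Pth.move w F).trans p).cast hw.symm rfl (by rw [hE1, add_comm]), q⟩

theorem path3 (n1 n2 q : Matrix γ β ℕ) (U : γ → β → Prop) (h : Sta Θ B σ τ V S)
    (hqV : ∀ i b, q i b ≠ 0 → V i b)
    (hq : ∀ i b b', q i b ≠ 0 → B b b' ≠ 0 → U i b')
    (h12 : ∀ i b, U i b → (tot B + tot Θ ≤ n1 i b ∧ tot B + tot Θ ≤ n2 i b) ∨ S i b)
    (hc : Chp σ τ S n1)
    (he : n2 + q * B = n1 + Θ * q) : Pth Θ B n1 n2 q := by
  classical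
  obtain ⟨L, hL⟩ : ∃ L, L = tot q + 1 := ⟨_, rfl⟩
  have hL0 : 0 < L := by omega
  have hqL : ∀ i b, q i b ≤ L := fun i b => (le_tot q i b).trans (by omega)
  obtain ⟨r, hr⟩ : ∃ r : ℕ → Matrix γ β ℕ, ∀ j i b, r j i b = j * q i b / L :=
    ⟨fun j i b => j * q i b / L, fun _ _ _ => rfl⟩
  have hr1 : ∀ j i b, L * r j i b ≤ j * q i b := fun j i b => by
    rw [hr]; exact Nat.mul_div_le _ _
  have hr3 : ∀ j i b, j * q i b < L * r j i b + L := fun j i b => by
    rw [hr]
    have := Nat.lt_mul_div_succ (j * q i b) hL0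
    have h3 : L * (j * q i b / L + 1) = L * (j * q i b / L) + L := by ring
    omega
  have hr2 : ∀ j i b, j * q i b ≤ L * r j i b + L := fun j i b => (hr3 j i b).le
  have hrq : ∀ j i b, r j i b ≠ 0 → q i b ≠ 0 := by
    intro j i b h0 h1
    apply h0
    rw [hr, h1, mul_zero, Nat.zero_div]
  have k6 : ∀ i b', n2 i b' + (q * B) i b' = n1 i b' + (Θ * q) i b' := by
    intro i b'
    exact congrFun (congrFun he i) b'
  -- big positions
  have bd2 : ∀ j, j ≤ L → ∀ i b', ¬ S i b' → U i b' →
      tot B + (r j * B) i b' ≤ n1 i b' + (Θ * r j) i b' := by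
    intro j hj i b' hS hU
    obtain ⟨k7, k8⟩ : tot B + tot Θ ≤ n1 i b' ∧ tot B + tot Θ ≤ n2 i b' := by
      rcases h12 i b' hU with h | h
      · exact h
      · exact absurd h hS
    have k2 : L * (r j * B) i b' ≤ j * (q * B) i b' := by
      rw [Matrix.mul_apply, Matrix.mul_apply, Finset.mul_sum, Finset.mul_sum]
      refine Finset.sum_le_sum fun b _ => ?_
      rw [← mul_assoc, ← mul_assoc]
      exact Nat.mul_le_mul_right _ (hr1 j i b)
    have k3 : j * (Θ * q) i b' ≤ L * (Θ * r j) i b' + L * tot Θ := by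
      have k4 : j * (Θ * q) i b' ≤ L * (Θ * r j) i b' + L * ∑ c, Θ i c := by
        rw [Matrix.mul_apply, Matrix.mul_apply, Finset.mul_sum, Finset.mul_sum,
          Finset.mul_sum, ← Finset.sum_add_distrib]
        refine Finset.sum_le_sum fun c _ => ?_
        have := Nat.mul_le_mul_left (Θ i c) (hr2 j c b')
        calc j * (Θ i c * q c b') = Θ i c * (j * q c b') := by ring
          _ ≤ Θ i c * (L * r j c b' + L) := this
          _ = L * (Θ i c * r j c b') + L * Θ i c := by ring
      exact k4.trans (Nat.add_le_add_left (Nat.mul_le_mul_left _ (row_le Θ i)) _)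
    have e2 : j * n2 i b' + j * (q * B) i b' = j * n1 i b' + j * (Θ * q) i b' := by
      rw [← Nat.mul_add, k6, Nat.mul_add]
    obtain ⟨w, hw⟩ : ∃ w, L = j + w := ⟨L - j, by omega⟩
    have e3 : w * (tot B + tot Θ) ≤ w * n1 i b' := Nat.mul_le_mul_left _ k7
    have e4 : j * (tot B + tot Θ) ≤ j * n2 i b' := Nat.mul_le_mul_left _ k8
    have e5 : L * n1 i b' = j * n1 i b' + w * n1 i b' := by rw [hw]; ring
    have e6 : L * (tot B + tot Θ) = j * (tot B + tot Θ) + w * (tot B + tot Θ) := by
      rw [hw]; ring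
    have e7 : L * (tot B + tot Θ) = L * tot B + L * tot Θ := by ring
    have e8 : L * (tot B + (r j * B) i b') ≤ L * (n1 i b' + (Θ * r j) i b') := by
      rw [Nat.mul_add, Nat.mul_add]
      omega
    exact Nat.le_of_mul_le_mul_left e8 hL0
  -- all positions
  have bd1 : ∀ j, j ≤ L → ∀ i b', (r j * B) i b' ≤ n1 i b' + (Θ * r j) i b' := by
    intro j hj i b'
    by_cases hS : S i b'
    · have s1 : ∀ X : Matrix γ β ℕ, (∀ b, X i b ≠ 0 → q i b ≠ 0) →
          (X * B) i b' = X i (τ.symm b') := by
        intro X hX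
        rw [Matrix.mul_apply, Finset.sum_eq_single (τ.symm b')]
        · by_cases hX0 : X i (τ.symm b') = 0
          · rw [hX0, zero_mul]
          · rw [h.bb i b' hS _ (hqV _ _ (hX _ hX0)), if_pos (Equiv.apply_symm_apply τ b'),
              mul_one]
        · intro b _ hbb
          by_cases hX0 : X i b = 0
          · rw [hX0, zero_mul]
          · rw [h.bb i b' hS b (hqV _ _ (hX b hX0)), if_neg (fun h5 => hbb (by
              rw [← h5, Equiv.symm_apply_apply])), mul_zero]
        · intro h; exact absurd (Finset.mem_univ _) h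
      have s2 : ∀ X : Matrix γ β ℕ, (Θ * X) i b' = X (σ i) b' := by
        intro X
        rw [Matrix.mul_apply, Finset.sum_eq_single (σ i)]
        · rw [h.th i b' hS, if_pos rfl, one_mul]
        · intro c _ hc
          rw [h.th i b' hS, if_neg hc, zero_mul]
        · intro h; exact absurd (Finset.mem_univ _) h
      have k7 := k6 i b'
      rw [s1 q (fun _ h => h), s2] at k7
      rw [s1 (r j) (fun b h0 => hrq j i b h0), s2]
      have k8 := hr1 j i (τ.symm b')
      have k9 := hr3 j (σ i) b'
      have e2 : j * n2 i b' + j * q i (τ.symm b') = j * n1 i b' + j * q (σ i) b' := by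
        rw [← Nat.mul_add, k7, Nat.mul_add]
      have e3 : j * n1 i b' ≤ L * n1 i b' := Nat.mul_le_mul_right _ hj
      have e4 : L * r j i (τ.symm b') < L * (n1 i b' + r j (σ i) b' + 1) := by
        have : L * (n1 i b' + r j (σ i) b' + 1) = L * n1 i b' + L * r j (σ i) b' + L := by ring
        rw [this]
        omega
      have e5 := Nat.lt_of_mul_lt_mul_left e4
      omega
    · by_cases hU : U i b'
      · have := bd2 j hj i b' hS hU
        omega
      · have : (r j * B) i b' = 0 := by
          by_contra hne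
          obtain ⟨b, hb1, hb2⟩ := mul_ne_zero_entry _ _ _ _ hne
          exact hU (hq i b b' (hrq j i b hb1) hb2)
        rw [this]; exact Nat.zero_le _
  have key : ∀ j, j ≤ L → ∃ n : Matrix γ β ℕ, n + r j * B = n1 + Θ * r j ∧
      Pth Θ B n1 n (r j) ∧ Chp σ τ S n := by
    intro j
    induction j with
    | zero =>
      intro _
      have h0 : r 0 = 0 := by
        ext i b
        rw [hr]; simp
      refine ⟨n1, by rw [h0]; simp, ?_, hc⟩
      rw [h0]
      exact Pth.refl _
    | succ j ih =>
      intro hj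
      obtain ⟨n, hn, hp, hcn⟩ := ih (by omega)
      have hmono : ∀ i b, r j i b ≤ r (j + 1) i b := fun i b => by
        rw [hr, hr]
        exact Nat.div_le_div_right (Nat.mul_le_mul_right _ (by omega))
      obtain ⟨E, hE⟩ : ∃ E : Matrix γ β ℕ, ∀ i b, r (j + 1) i b = r j i b + E i b :=
        ⟨fun i b => r (j + 1) i b - r j i b, fun i b => (Nat.add_sub_cancel' (hmono i b)).symm⟩
      have hE1 : ∀ i b, E i b ≤ 1 := by
        intro i b
        have h3 : r (j + 1) i b ≤ r j i b + 1 := by
          rw [hr, hr]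
          have : (j + 1) * q i b ≤ j * q i b + L := by
            have := hqL i b
            rw [Nat.add_mul]; omega
          calc (j + 1) * q i b / L ≤ (j * q i b + L) / L := Nat.div_le_div_right this
            _ = j * q i b / L + 1 := Nat.add_div_right _ hL0
        have := hE i b
        omega
      have hEU : ∀ i b, E i b ≠ 0 → q i b ≠ 0 := by
        intro i b h0
        apply hrq (j + 1) i b
        have := hE i b
        omega
      have hrr : r (j + 1) = r j + E := by
        ext i b; exact hE i b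
      obtain ⟨n', hn'⟩ : ∃ n' : Matrix γ β ℕ, n' + r (j + 1) * B = n1 + Θ * r (j + 1) := by
        refine ⟨fun i b => n1 i b + (Θ * r (j + 1)) i b - (r (j + 1) * B) i b, ?_⟩
        ext i b
        change n1 i b + (Θ * r (j + 1)) i b - (r (j + 1) * B) i b + (r (j + 1) * B) i b =
          n1 i b + (Θ * r (j + 1)) i b
        exact Nat.sub_add_cancel (bd1 (j + 1) hj i b)
      have hbal : n' + E * B = n + Θ * E := by
        have h1 := hn'
        rw [hrr, Matrix.add_mul, Matrix.mul_add] at h1
        have h2 : (n' + E * B) + r j * B = (n + Θ * E) + r j * B := by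
          calc (n' + E * B) + r j * B = n' + (r j * B + E * B) := by abel
            _ = n1 + (Θ * r j + Θ * E) := h1
            _ = (n1 + Θ * r j) + Θ * E := by abel
            _ = (n + r j * B) + Θ * E := by rw [hn]
            _ = (n + Θ * E) + r j * B := by abel
        exact add_right_cancel h2
      have hEB : ∀ i b', ¬ S i b' → (E * B) i b' ≤ n i b' := by
        intro i b' hS
        by_cases hU : U i b'
        · have k1 : (E * B) i b' ≤ tot B := by
            rw [Matrix.mul_apply]
            refine le_trans (Finset.sum_le_sum fun b _ => ?_) (col_le B b')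
            calc E i b * B b b' ≤ 1 * B b b' := Nat.mul_le_mul_right _ (hE1 i b)
              _ = B b b' := one_mul _
          have k2 := bd2 j (by omega) i b' hS hU
          have k3 : n i b' + (r j * B) i b' = n1 i b' + (Θ * r j) i b' :=
            congrFun (congrFun hn i) b'
          omega
        · have : (E * B) i b' = 0 := by
            by_contra hne
            obtain ⟨b, hb1, hb2⟩ := mul_ne_zero_entry _ _ _ _ hne
            exact hU (hq i b b' (hEU i b hb1) hb2)
          rw [this]; exact Nat.zero_le _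
      obtain ⟨p1, p2⟩ := greedy h (tot E) n n' E rfl hbal
        (fun i b h0 => hqV i b (hEU i b h0)) hEB hcn
      exact ⟨n', hn', (hp.trans p1).cast rfl rfl hrr.symm, p2⟩
  obtain ⟨n, hn, hp, _⟩ := key L le_rfl
  have hrL : r L = q := by
    ext i b
    rw [hr]
    exact Nat.mul_div_cancel_left _ hL0
  rw [hrL] at hn hp
  have e : n = n2 := by
    have h3 : n + q * B = n2 + q * B := by rw [hn, he]
    exact add_right_cancel h3
  exact hp.cast rfl e rfl

end Run7.h850.SC
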