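import Pool.Agent.Run7.h850.SC.Core3

/-!
# All components; classes; cycles
-/

set_option autoImplicit false
set_option linter.unusedSectionVars false
set_option linter.unusedVariables false

namespace Run7.h850.SC

open Matrix Pool.Agent.H812R2.SSE
open Run7.h850.SS hiding Bo Gw Fam PB fam_pb core2 loc_glob glue block_step gd_sub gd_blocks fam_iso' reduce3 gw_of_gd
open Run7.h850.SG (Two)

theorem bo_irr (X : Obj) (h : ∀ a b, Rch X.M a b) (hr : ∀ b, Rec X.M b) : Bo X.M := by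
  by_cases h2 : ∀ c, Two X.M c
  · exact Or.inl h2
  · right
    push Not at h2
    obtain ⟨c0, hc0⟩ := h2
    have hall : ∀ c, ¬ Two X.M c := fun c hc => hc0 (two_mut hc (h _ _) (h _ _))
    obtain ⟨τ, hτ⟩ := exists_tau hr
    refine ⟨τ, fun i c => ?_⟩
    by_cases hc : c = τ i
    · rw [if_pos hc, hc]; exact (hτ i (hall i)).1
    · rw [if_neg hc]
      by_contra hne
      exact hall i (two_of_succ hc hne (by rw [(hτ i (hall i)).1]; exact one_ne_zero) (h _ _)
        (h _ _))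

theorem rec_mut {α : Type} [Fintype α] [DecidableEq α] {A : Matrix α α ℕ} {i j : α}
    (hi : Rec A i) (h : Mut A i j) : Rec A j := by
  obtain ⟨N, hN, hne⟩ := hi
  obtain ⟨⟨a, ha⟩, b, hb⟩ := h
  refine ⟨b + N + a, by omega, ?_⟩
  rw [pow_add, pow_add]
  exact mne (mne hb hne) ha

/-- every component which contains a closed path is admissible -/
theorem pb_comp {α : Type} [Fintype α] [DecidableEq α] (A : Matrix α α ℕ) (i : α)
    (hi : Rec A i) : PB (compO A i) := by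
  have hp : ∀ (k : ℕ) (a b : (compO A i).ι), ((compO A i).M ^ k) a b = (A ^ k) a.1 b.1 := by
    intro k a b
    rw [← bl_pow hi k]; rfl
  have hr : ∀ a b, Rch (compO A i).M a b := by
    intro a b
    obtain ⟨k, hk⟩ := (Mut.trans (Mut.symm a.2) b.2).1
    exact ⟨k, by rw [hp]; exact hk⟩
  refine ⟨bo_irr _ hr fun b => ?_, hr⟩
  obtain ⟨N, hN, h⟩ := rec_mut hi b.2
  exact ⟨N, hN, by rw [hp]; exact h⟩

theorem rl_ch {X X' Y Y' : Obj} {ρ : Matrix X.ι X'.ι ℕ} {ρ' : Matrix Y.ι Y'.ι ℕ}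
    (c : CH X X' ρ) (c' : CH Y Y' ρ') (h : Rl X' Y') : Rl X Y := by
  intro l hl R S h1 h2 h3 h4
  obtain ⟨ρs, a, d, cs⟩ := sd_of_ch c
  obtain ⟨ρs', b, d', cs'⟩ := sd_of_ch c'
  have hs : SD X.M Y.M R S l := ⟨h1, h2, h3, h4⟩
  have hall := d.symm.trans (hs.trans d')
  obtain ⟨t, ct⟩ := h _ (by omega) _ _ hall.rs hall.sr hall.ar hall.sa
  refine ⟨t + a + b, ?_⟩
  have c2 := (CH.trans c ct).trans cs'
  convert c2 using 1
  symm
  calc ρ * (X'.M ^ t * (ρs * (R * ρ'))) * ρs'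
      = (ρ * X'.M ^ t) * ρs * (R * (ρ' * ρs')) := by simp only [Matrix.mul_assoc]
    _ = X.M ^ t * (ρ * ρs) * (R * Y.M ^ b) := by
        rw [← d.arp t, d'.rs]; simp only [Matrix.mul_assoc]
    _ = X.M ^ (t + a) * (X.M ^ b * R) := by
        rw [d.rs, ← pow_add, hs.arp b]
    _ = X.M ^ (t + a + b) * R := by rw [← Matrix.mul_assoc, ← pow_add]

theorem hl_of_rl {α β : Type} [Fintype α] [DecidableEq α] [Fintype β] [DecidableEq β]
    (A : Matrix α α ℕ) (B : Matrix β β ℕ)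
    (hrl : ∀ i j, Rec A i → Rec B j → Rl (compO A i) (compO B j)) (R : Matrix α β ℕ)
    (S : Matrix β α ℕ) (l : ℕ) (hl : 1 ≤ l) (h : SD A B R S l) : Hl A B R S := by
  intro i j hi hm
  obtain ⟨j', hm', hj'⟩ := Mt.exists h hi
  have hj : Rec B j := rec_mut hj' (Mt.unique h hm' hm)
  have hms : Mt B S R j i := hm.symm h
  refine hrl i j hi hj l hl (bl A B R i j) (bl B A S j i) ?_ ?_ (bl_semi h hi hj hm)
    (bl_semi h.symm hj hi hms).symm
  · rw [← bl_mul h h.symm hm hms, h.rs, bl_pow hi]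
  · rw [← bl_mul h.symm h hms hm, h.sr, bl_pow hj]

/-! ### cycles -/

/-- the permutation matrix of a cyclic permutation -/
def Cy (X : Obj) : Prop :=
  ∃ σ : Equiv.Perm X.ι, (∀ i c, X.M i c = if c = σ i then 1 else 0) ∧
    ∀ i j, ∃ p : ℕ, (σ ^ p) i = j

/-- the matrices of a shift equivalence between permutation matrices -/
theorem perm_fun {X Y : Obj} {σ : Equiv.Perm X.ι} {τ : Equiv.Perm Y.ι}
    (hσ : ∀ i c, X.M i c = if c = σ i then 1 else 0)
    (hτ : ∀ i c, Y.M i c = if c = τ i then 1 else 0) {l : ℕ} {R : Matrix X.ι Y.ι ℕ}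
    {S : Matrix Y.ι X.ι ℕ} (h1 : R * S = X.M ^ l) (h2 : S * R = Y.M ^ l) :
    ∃ φ : X.ι → Y.ι, ∀ i k, R i k = if k = φ i then 1 else 0 := by
  have hrow : ∀ i, ∃ k, R i k ≠ 0 := by
    intro i
    have h := perm_pow_ne hσ l i
    rw [← h1] at h
    obtain ⟨k, h3, _⟩ := mex h
    exact ⟨k, h3⟩
  have hrowS : ∀ k, ∃ j, S k j ≠ 0 := by
    intro k
    have h := perm_pow_ne hτ l k
    rw [← h2] at h
    obtain ⟨j, h3, _⟩ := mex h
    exact ⟨j, h3⟩
  have hRS : ∀ i k j, R i k ≠ 0 → S k j ≠ 0 → j = (σ ^ l) i := by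
    intro i k j h3 h4
    have h5 : (R * S) i j ≠ 0 := mne h3 h4
    rw [h1, perm_pow_apply hσ] at h5
    by_contra hne
    exact h5 (if_neg (fun h => hne h.symm))
  have hSR : ∀ k j x, S k j ≠ 0 → R j x ≠ 0 → x = (τ ^ l) k := by
    intro k j x h3 h4
    have h5 : (S * R) k x ≠ 0 := mne h3 h4
    rw [h2, perm_pow_apply hτ] at h5
    by_contra hne
    exact h5 (if_neg (fun h => hne h.symm))
  have huniq : ∀ i k k', R i k ≠ 0 → R i k' ≠ 0 → k = k' := by
    intro i k k' h3 h4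
    obtain ⟨j, hj⟩ := hrowS k
    obtain ⟨j', hj'⟩ := hrowS k'
    have e1 := hRS i k j h3 hj
    have e2 := hRS i k' j' h4 hj'
    rw [← e1] at e2
    rw [e2] at hj'
    obtain ⟨x, hx⟩ := hrow j
    have e3 := hSR k j x hj hx
    have e4 := hSR k' j x hj' hx
    exact (τ ^ l).injective (e3.symm.trans e4)
  choose φ hφ using hrow
  refine ⟨φ, fun i k => ?_⟩
  by_cases hk : k = φ i
  · rw [if_pos hk, hk]
    obtain ⟨j, hj⟩ := hrowS (φ i)
    have h3 := mul_entry_le R S i (φ i) j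
    have h4 : (R * S) i j ≤ 1 := by
      rw [h1, perm_pow_apply hσ]
      split <;> omega
    have h5 : R i (φ i) * 1 ≤ R i (φ i) * S (φ i) j :=
      Nat.mul_le_mul_left _ (Nat.one_le_iff_ne_zero.2 hj)
    have h6 := hφ i
    omega
  · rw [if_neg hk]
    by_contra hne
    exact hk (huniq i k (φ i) hne (hφ i))

theorem rl_cy {X Y : Obj} (hX : Cy X) (hY : Cy Y) : Rl X Y := by
  obtain ⟨σ, hσ, hσ'⟩ := hX
  obtain ⟨τ, hτ, hτ'⟩ := hY
  intro l hl R S h1 h2 h3 h4
  obtain ⟨φ, hφ⟩ := perm_fun hσ hτ h1 h2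
  obtain ⟨ψ, hψ⟩ := perm_fun hτ hσ h2 h1
  -- `φ` is a bijection
  have e1 : ∀ i, ψ (φ i) = (σ ^ l) i := by
    intro i
    have h5 : (R * S) i (ψ (φ i)) ≠ 0 := by
      refine mne (b := φ i) ?_ ?_
      · rw [hφ, if_pos rfl]; exact one_ne_zero
      · rw [hψ, if_pos rfl]; exact one_ne_zero
    rw [h1, perm_pow_apply hσ] at h5
    by_contra hne
    exact h5 (if_neg (fun h => hne h.symm))
  have e2 : ∀ k, φ (ψ k) = (τ ^ l) k := by
    intro k
    have h5 : (S * R) k (φ (ψ k)) ≠ 0 := by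
      refine mne (b := ψ k) ?_ ?_
      · rw [hψ, if_pos rfl]; exact one_ne_zero
      · rw [hφ, if_pos rfl]; exact one_ne_zero
    rw [h2, perm_pow_apply hτ] at h5
    by_contra hne
    exact h5 (if_neg (fun h => hne h.symm))
  have hinj : Function.Injective φ := by
    intro a b hab
    apply (σ ^ l).injective
    rw [← e1, ← e1, hab]
  have hsur : Function.Surjective φ := by
    intro k
    refine ⟨ψ ((τ ^ l).symm k), ?_⟩
    rw [e2, Equiv.apply_symm_apply]
  let e : X.ι ≃ Y.ι := Equiv.ofBijective φ ⟨hinj, hsur⟩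
  have he : ∀ i, e i = φ i := fun i => rfl
  -- `φ` commutes with the shifts
  have e3 : ∀ i, φ (σ i) = τ (φ i) := by
    intro i
    have h5 : (X.M * R) i (φ (σ i)) ≠ 0 := by
      refine mne (b := σ i) ?_ ?_
      · rw [hσ, if_pos rfl]; exact one_ne_zero
      · rw [hφ, if_pos rfl]; exact one_ne_zero
    rw [h3] at h5
    obtain ⟨y, h6, h7⟩ := mex h5
    have h8 : y = φ i := by
      by_contra hne
      exact h6 (by rw [hφ, if_neg hne])
    rw [h8] at h7
    by_contra hne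
    exact h7 (by rw [hτ, if_neg hne])
  refine ⟨0, ?_⟩
  rw [pow_zero, Matrix.one_mul]
  refine ch_iso3 e (fun a b => ?_) R (fun a b => ?_)
  · rw [he, he, hσ, hτ, ← e3]
    by_cases hb : b = σ a
    · rw [if_pos hb, if_pos (by rw [hb])]
    · rw [if_neg hb, if_neg (fun h => hb (hinj h))]
  · rw [hφ, he]
    by_cases hb : b = φ a
    · rw [if_pos hb, if_pos hb.symm]
    · rw [if_neg hb, if_neg (fun h => hb h.symm)]

/-- a cycle of length at least two is not shift equivalent to a primitive matrix -/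
theorem cy_prim {X Y : Obj} (hX : Cy X) (h2 : Nontrivial X.ι)
    (hY : ∃ N : ℕ, ∀ a b, (Y.M ^ N) a b ≠ 0) {l : ℕ} {R : Matrix X.ι Y.ι ℕ}
    {S : Matrix Y.ι X.ι ℕ} (h1 : R * S = X.M ^ l) (h4 : S * X.M = Y.M * S) : False := by
  obtain ⟨σ, hσ, _⟩ := hX
  obtain ⟨N, hN⟩ := hY
  have hall : ∀ i j, (X.M ^ (l + N)) i j ≠ 0 := by
    intro i j
    have e1 : X.M ^ (l + N) = R * Y.M ^ N * S := by
      rw [pow_add, ← h1, Matrix.mul_assoc, Matrix.mul_assoc,
        semiconj_pow Y.M X.M S h4.symm N]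
    rw [e1]
    have h5 := perm_pow_ne hσ l i
    rw [← h1] at h5
    obtain ⟨a, ha, _⟩ := mex h5
    have h6 := perm_pow_ne hσ l ((σ ^ l).symm j)
    rw [Equiv.apply_symm_apply, ← h1] at h6
    obtain ⟨b, _, hb⟩ := mex h6
    exact mne (mne ha (hN a b)) hb
  obtain ⟨i, j, hij⟩ := h2
  have h5 := hall i i
  have h6 := hall i j
  rw [perm_pow_apply hσ] at h5 h6
  by_cases h7 : (σ ^ (l + N)) i = i
  · exact h6 (if_neg (fun h => hij (h7.symm.trans h)))
  · exact h5 (if_neg h7)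

end Run7.h850.SC
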